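import Mathlib
import Pool.Agent.U839.Thin.Fin

set_option autoImplicit false

/-! # Second moment method for the number of empty sets -/

open MeasureTheory ProbabilityTheory Filter Finset Topology

namespace Pool.Agent.U839.Wg

open Pool.Agent.U839.Thin (compl_indep)

variable {Ω : Type*} [MeasurableSpace Ω] {μ : Measure Ω} [IsProbabilityMeasure μ]

open Classical in
/-- Chebyshev's inequality for a sum of indicators -/
theorem sm {ι : Type*} (S : Finset ι) (F : ι → Set Ω) (hF : ∀ i ∈ S, MeasurableSet (F i)) (V : ℝ)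
    (hpos : 0 < ∑ i ∈ S, μ.real (F i))
    (hV : ∑ i ∈ S, ∑ j ∈ S, (μ.real (F i ∩ F j) - μ.real (F i) * μ.real (F j)) ≤ V) :
    μ.real {ω | ((S.filter (fun i => ω ∈ F i)).card : ℝ) ≤ (∑ i ∈ S, μ.real (F i)) / 2} ≤
      4 * V / (∑ i ∈ S, μ.real (F i)) ^ 2 := by
  obtain ⟨m, hm⟩ : ∃ m : ℝ, m = ∑ i ∈ S, μ.real (F i) := ⟨_, rfl⟩
  rw [← hm] at hpos ⊢
  obtain ⟨f, hf⟩ : ∃ f : ι → Ω → ℝ, f = fun i => (F i).indicator (fun _ => (1 : ℝ)) := ⟨_, rfl⟩
  obtain ⟨N, hN⟩ : ∃ N : Ω → ℝ, N = fun ω => ∑ i ∈ S, f i ω := ⟨_, rfl⟩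
  have hNc : ∀ ω, N ω = ((S.filter (fun i => ω ∈ F i)).card : ℝ) := by
    intro ω
    rw [hN, hf]
    simp only [Set.indicator_apply]
    rw [Finset.sum_boole]
  have hfi : ∀ i ∈ S, Integrable (f i) μ := fun i hi => by
    rw [hf]
    exact (integrable_const (1 : ℝ)).indicator (hF i hi)
  have hf1 : ∀ i ∈ S, ∫ ω, f i ω ∂μ = μ.real (F i) := by
    intro i hi
    rw [hf]
    simp only
    rw [integral_indicator_const _ (hF i hi)]
    simp
  have hff : ∀ i ∈ S, ∀ j ∈ S, Integrable (fun ω => f i ω * f j ω) μ ∧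
      ∫ ω, f i ω * f j ω ∂μ = μ.real (F i ∩ F j) := by
    intro i hi j hj
    have e : (fun ω => f i ω * f j ω) = (F i ∩ F j).indicator (fun _ => (1 : ℝ)) := by
      funext ω
      rw [hf]
      simp only [Set.indicator_apply, Set.mem_inter_iff]
      by_cases h1 : ω ∈ F i <;> by_cases h2 : ω ∈ F j <;> simp [h1, h2]
    rw [e]
    refine ⟨(integrable_const (1 : ℝ)).indicator ((hF i hi).inter (hF j hj)), ?_⟩
    rw [integral_indicator_const _ ((hF i hi).inter (hF j hj))]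
    simp
  have hNint : Integrable N μ := by
    rw [hN]
    exact integrable_finsetSum S hfi
  have hN1 : ∫ ω, N ω ∂μ = m := by
    rw [hN, integral_finsetSum S hfi, hm]
    exact Finset.sum_congr rfl hf1
  have hN2e : (fun ω => N ω ^ 2) = fun ω => ∑ i ∈ S, ∑ j ∈ S, f i ω * f j ω := by
    funext ω
    rw [hN]
    simp only
    rw [sq, Finset.sum_mul_sum]
  have hN2i : Integrable (fun ω => N ω ^ 2) μ := by
    rw [hN2e]
    exact integrable_finsetSum S fun i hi => integrable_finsetSum S fun j hj => (hff i hi j hj).1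
  have hN2 : ∫ ω, N ω ^ 2 ∂μ ≤ V + m ^ 2 := by
    rw [hN2e, integral_finsetSum S fun i hi => integrable_finsetSum S fun j hj => (hff i hi j hj).1]
    have h1 : ∀ i ∈ S, ∫ ω, ∑ j ∈ S, f i ω * f j ω ∂μ = ∑ j ∈ S, μ.real (F i ∩ F j) := by
      intro i hi
      rw [integral_finsetSum S fun j hj => (hff i hi j hj).1]
      exact Finset.sum_congr rfl fun j hj => (hff i hi j hj).2
    rw [Finset.sum_congr rfl h1]
    have h2 : m ^ 2 = ∑ i ∈ S, ∑ j ∈ S, μ.real (F i) * μ.real (F j) := by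
      rw [sq, hm, Finset.sum_mul_sum]
    rw [h2]
    have h3 : ∑ i ∈ S, ∑ j ∈ S, (μ.real (F i ∩ F j) - μ.real (F i) * μ.real (F j)) =
        ∑ i ∈ S, ∑ j ∈ S, μ.real (F i ∩ F j) - ∑ i ∈ S, ∑ j ∈ S, μ.real (F i) * μ.real (F j) := by
      simp only [Finset.sum_sub_distrib]
    linarith
  have hvar : ∫ ω, (N ω - m) ^ 2 ∂μ ≤ V := by
    have h1 : (fun ω => (N ω - m) ^ 2) = fun ω => (N ω ^ 2 - (2 * m) * N ω) + m ^ 2 := by
      funext ω
      ring
    have h3 : Integrable (fun ω => N ω ^ 2 - (2 * m) * N ω) μ := hN2i.sub (hNint.const_mul (2 * m))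
    rw [h1, integral_add h3 (integrable_const _),
      integral_sub hN2i (hNint.const_mul (2 * m)), integral_const_mul, hN1, integral_const]
    simp only [probReal_univ, smul_eq_mul, one_mul]
    nlinarith
  have hvi : Integrable (fun ω => (N ω - m) ^ 2) μ := by
    have h1 : (fun ω => (N ω - m) ^ 2) = fun ω => (N ω ^ 2 - (2 * m) * N ω) + m ^ 2 := by
      funext ω
      ring
    rw [h1]
    exact (hN2i.sub (hNint.const_mul (2 * m))).add (integrable_const _)
  have hmk := mul_meas_ge_le_integral_of_nonneg (μ := μ)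
    (Filter.Eventually.of_forall (fun ω => sq_nonneg (N ω - m))) hvi ((m / 2) ^ 2)
  have hsub : {ω | ((S.filter (fun i => ω ∈ F i)).card : ℝ) ≤ m / 2} ⊆
      {ω | (m / 2) ^ 2 ≤ (N ω - m) ^ 2} := by
    intro ω hω
    simp only [Set.mem_ofPred_eq] at hω ⊢
    rw [← hNc ω] at hω
    nlinarith
  have h5 := measureReal_mono (μ := μ) hsub (measure_ne_top _ _)
  have h6 : (m / 2) ^ 2 * μ.real {ω | (m / 2) ^ 2 ≤ (N ω - m) ^ 2} ≤ V := hmk.trans hvar
  rw [le_div_iff₀ (by positivity)]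
  nlinarith [measureReal_nonneg (μ := μ) (s := {ω | (m / 2) ^ 2 ≤ (N ω - m) ^ 2}),
    mul_le_mul_of_nonneg_right h5 (sq_nonneg m)]

/-- no element of the finite set `s` is chosen -/
def Emp (E : ℕ → Set Ω) (s : Finset ℕ) : Set Ω := ⋂ m ∈ s, (E m)ᶜ

omit [MeasurableSpace Ω] in
theorem mem_Emp {E : ℕ → Set Ω} {s : Finset ℕ} {ω : Ω} : ω ∈ Emp E s ↔ ∀ m ∈ s, ω ∉ E m := by
  unfold Emp
  simp only [Set.mem_iInter, Set.mem_compl_iff]

theorem Emp_meas {E : ℕ → Set Ω} (hm : ∀ n, MeasurableSet (E n)) (s : Finset ℕ) :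
    MeasurableSet (Emp E s) := by
  unfold Emp
  exact Finset.measurableSet_biInter s fun m _ => (hm m).compl

theorem Emp_prob {E : ℕ → Set Ω} (hm : ∀ n, MeasurableSet (E n)) (hE : iIndepSet E μ) (s : Finset ℕ) :
    μ.real (Emp E s) = ∏ m ∈ s, (1 - μ.real (E m)) := by
  have := (compl_indep hE).meas_biInter s
  unfold Emp
  simp only [measureReal_def]
  rw [this, ENNReal.toReal_prod]
  apply Finset.prod_congr rfl
  intro m _
  exact probReal_compl_eq_one_sub (hm m)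

omit [MeasurableSpace Ω] in
theorem Emp_inter (E : ℕ → Set Ω) (s t : Finset ℕ) : Emp E s ∩ Emp E t = Emp E (s ∪ t) := by
  ext ω
  rw [Set.mem_inter_iff, mem_Emp, mem_Emp, mem_Emp]
  constructor
  · rintro ⟨h1, h2⟩ m hm
    rcases Finset.mem_union.1 hm with h | h
    · exact h1 m h
    · exact h2 m h
  · intro h
    exact ⟨fun m hm => h m (Finset.mem_union_left _ hm), fun m hm => h m (Finset.mem_union_right _ hm)⟩

theorem Emp_disj {E : ℕ → Set Ω} (hm : ∀ n, MeasurableSet (E n)) (hE : iIndepSet E μ) (s t : Finset ℕ)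
    (h : Disjoint s t) : μ.real (Emp E s ∩ Emp E t) = μ.real (Emp E s) * μ.real (Emp E t) := by
  rw [Emp_inter, Emp_prob hm hE, Emp_prob hm hE, Emp_prob hm hE, Finset.prod_union h]

theorem Emp_one {E : ℕ → Set Ω} (hm : ∀ n, MeasurableSet (E n)) (hE : iIndepSet E μ) (s t : Finset ℕ)
    (hρ : ∀ m ∈ s, μ.real (E m) ≤ 1 / 2) (h : (s ∩ t).card ≤ 1) :
    μ.real (Emp E s ∩ Emp E t) ≤ 2 * (μ.real (Emp E s) * μ.real (Emp E t)) := by
  rw [Emp_inter, Emp_prob hm hE, Emp_prob hm hE, Emp_prob hm hE,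
    ← Finset.prod_union_inter (s₁ := s) (s₂ := t)]
  have h1 : 0 ≤ ∏ m ∈ s ∪ t, (1 - μ.real (E m)) := Finset.prod_nonneg fun m _ => by
    have := prob_le_one (μ := μ) (s := E m)
    have h2 : μ.real (E m) ≤ 1 := by
      rw [measureReal_def]
      exact ENNReal.toReal_le_of_le_ofReal zero_le_one (by rw [ENNReal.ofReal_one]; exact this)
    linarith
  have h2 : (1 : ℝ) / 2 ≤ ∏ m ∈ s ∩ t, (1 - μ.real (E m)) := by
    rcases Nat.le_one_iff_eq_zero_or_eq_one.1 h with h3 | h3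
    · rw [Finset.card_eq_zero.1 h3, Finset.prod_empty]; norm_num
    · obtain ⟨a, ha⟩ := Finset.card_eq_one.1 h3
      rw [ha, Finset.prod_singleton]
      have h4 : a ∈ s := by
        have : a ∈ s ∩ t := by rw [ha]; exact Finset.mem_singleton_self a
        exact (Finset.mem_inter.1 this).1
      linarith [hρ a h4]
  nlinarith

open Classical in
/-- the number of empty sets in a family of sets with few intersections -/
theorem thin_count {E : ℕ → Set Ω} (hm : ∀ n, MeasurableSet (E n)) (hE : iIndepSet E μ) {ι : Type*}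
    (I : Finset ι) (S : ι → Finset ℕ) (hρ : ∀ i ∈ I, ∀ m ∈ S i, μ.real (E m) ≤ 1 / 2)
    (hS : ∀ i ∈ I, ∀ j ∈ I, i ≠ j → (S i ∩ S j).card ≤ 1) (X : ℝ) (Xs : Finset (ι × ι))
    (hXs : ∀ i ∈ I, ∀ j ∈ I, i ≠ j → ¬ Disjoint (S i) (S j) → (i, j) ∈ Xs) (hXc : (Xs.card : ℝ) ≤ X)
    (p₀ p₁ : ℝ) (hp₀ : 0 < p₀) (hp : ∀ i ∈ I, p₀ ≤ μ.real (Emp E (S i)) ∧ μ.real (Emp E (S i)) ≤ p₁)
    (hI : I.Nonempty) (N : Ω → ℕ)
    (hN : ∀ ω, ∀ J ⊆ I, (∀ i ∈ J, ∀ m ∈ S i, ω ∉ E m) → J.card ≤ N ω) :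
    μ.real {ω | (N ω : ℝ) ≤ (I.card * p₀) / 2} ≤
      4 / (I.card * p₀) + 4 * X * p₁ ^ 2 / (I.card * p₀) ^ 2 := by
  have hX : (((I ×ˢ I).filter (fun z => z.1 ≠ z.2 ∧ ¬ Disjoint (S z.1) (S z.2))).card : ℝ) ≤ X := by
    refine le_trans ?_ hXc
    have : ((I ×ˢ I).filter (fun z => z.1 ≠ z.2 ∧ ¬ Disjoint (S z.1) (S z.2))).card ≤ Xs.card := by
      apply Finset.card_le_card
      intro z hz
      rw [Finset.mem_filter, Finset.mem_product] at hz
      exact hXs z.1 hz.1.1 z.2 hz.1.2 hz.2.1 hz.2.2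
    exact_mod_cast this
  obtain ⟨F, hF⟩ : ∃ F : ι → Set Ω, F = fun i => Emp E (S i) := ⟨_, rfl⟩
  obtain ⟨m, hmd⟩ : ∃ m : ℝ, m = ∑ i ∈ I, μ.real (F i) := ⟨_, rfl⟩
  have hc0 : (0 : ℝ) < I.card := by exact_mod_cast hI.card_pos
  have hp₁ : 0 ≤ p₁ := by
    obtain ⟨i, hi⟩ := hI
    linarith [(hp i hi).1.trans (hp i hi).2]
  have hmlow : I.card * p₀ ≤ m := by
    rw [hmd, ← nsmul_eq_mul, ← Finset.sum_const]
    apply Finset.sum_le_sum
    intro i hi
    rw [hF]
    exact (hp i hi).1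
  have hm0 : 0 < m := lt_of_lt_of_le (by positivity) hmlow
  have hX0 : 0 ≤ X := le_trans (Nat.cast_nonneg _) hX
  have hV : ∑ i ∈ I, ∑ j ∈ I, (μ.real (F i ∩ F j) - μ.real (F i) * μ.real (F j)) ≤ m + X * p₁ ^ 2 := by
    have h1 : ∀ i ∈ I, ∀ j ∈ I, μ.real (F i ∩ F j) - μ.real (F i) * μ.real (F j) ≤
        (if i = j then μ.real (F i) else 0) +
          (if i ≠ j ∧ ¬ Disjoint (S i) (S j) then p₁ ^ 2 else 0) := by
      intro i hi j hj
      by_cases hij : i = j
      · subst hij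
        rw [Set.inter_self]
        simp only [if_true, ne_eq, not_true_eq_false, false_and, if_false, add_zero]
        nlinarith [mul_self_nonneg (μ.real (F i))]
      · by_cases hd : Disjoint (S i) (S j)
        · rw [hF]
          simp only
          rw [Emp_disj hm hE _ _ hd, sub_self]
          simp [hij, hd]
        · rw [if_neg hij, if_pos ⟨hij, hd⟩, zero_add]
          rw [hF]
          simp only
          have h2 := Emp_one hm hE (S i) (S j) (hρ i hi) (hS i hi j hj hij)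
          have h3 : μ.real (Emp E (S i)) * μ.real (Emp E (S j)) ≤ p₁ * p₁ :=
            mul_le_mul (hp i hi).2 (hp j hj).2 measureReal_nonneg hp₁
          nlinarith
    refine (Finset.sum_le_sum fun i hi => Finset.sum_le_sum fun j hj => h1 i hi j hj).trans ?_
    simp only [Finset.sum_add_distrib]
    apply add_le_add
    · rw [hmd]
      apply Finset.sum_le_sum
      intro i hi
      rw [Finset.sum_ite_eq I i, if_pos hi]
    · rw [← Finset.sum_product', ← Finset.sum_filter, Finset.sum_const, nsmul_eq_mul]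
      exact mul_le_mul_of_nonneg_right hX (sq_nonneg _)
  have h := sm (μ := μ) I F (fun i _ => by rw [hF]; exact Emp_meas hm _) (m + X * p₁ ^ 2)
    (by rw [← hmd]; exact hm0) hV
  rw [← hmd] at h
  have hsub : {ω | (N ω : ℝ) ≤ (I.card * p₀) / 2} ⊆
      {ω | ((I.filter (fun i => ω ∈ F i)).card : ℝ) ≤ m / 2} := by
    intro ω hω
    simp only [Set.mem_ofPred_eq] at hω ⊢
    have h1 : (I.filter (fun i => ω ∈ F i)).card ≤ N ω := by
      apply hN ω _ (Finset.filter_subset _ _)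
      intro i hi
      have h2 := (Finset.mem_filter.1 hi).2
      rw [hF] at h2
      exact mem_Emp.1 h2
    have h3 : ((I.filter (fun i => ω ∈ F i)).card : ℝ) ≤ N ω := by exact_mod_cast h1
    linarith
  refine (measureReal_mono hsub (measure_ne_top _ _)).trans (h.trans ?_)
  have hq : 0 < (I.card : ℝ) * p₀ := by positivity
  have h2 : 4 * (m + X * p₁ ^ 2) / m ^ 2 = 4 / m + 4 * X * p₁ ^ 2 / m ^ 2 := by
    field_simp
  rw [h2]
  apply add_le_add
  · exact div_le_div_of_nonneg_left (by norm_num) hq hmlow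
  · apply div_le_div_of_nonneg_left (by positivity) (by positivity)
    exact pow_le_pow_left₀ hq.le hmlow 2

end Pool.Agent.U839.Wg
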