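import Mathlib
import Pool.Agent.U839.Sv.Fin

set_option autoImplicit false

/-! # The weights of a sieve in the residue classes modulo a prime -/

open Finset Filter Topology

namespace Pool.Agent.U839.Wg

open Pool.Agent.U839.Sv Pool.Agent.N610.MS
open Pool.Agent.U839.Thin (tlog)

theorem apoor_core (T : ℕ → ℕ) (hT : Monotone T)
    (hTs : ∀ ε : ℝ, 0 < ε → ∀ᶠ n : ℕ in atTop, (T n : ℝ) ≤ (n : ℝ) ^ ε) (c η δ s : ℝ)
    (hc : 0 < c) (hη : 0 < η) (hη2 : η ≤ 1 / 2) (hδ : 0 < δ) (hδ1 : δ ≤ 1) (hs : 1 / 2 ≤ s) :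
    ∀ᶠ q : ℕ in atTop, q.Prime → ∀ P : Finset ℕ, (∀ p ∈ P, p.Prime ∧ p ≤ T (q / 3)) →
      ((∏ p ∈ P, p : ℕ) : ℝ) ≤ (q : ℝ) ^ (η / 2) →
      (((range (wn c q + 1)).filter (fun i => ∀ p ∈ P, ¬ p ∣ i)).card : ℝ) ≤
        s * (c * (Real.log q) ^ 2 * ∏ p ∈ P, (1 - 1 / (p : ℝ))) →
      ∃ A : Finset ℕ, (∀ a ∈ A, 1 ≤ a ∧ a < q ∧ q ≤ 3 * a ∧
        ∑ i ∈ range (wn c q + 1), fT T (a + q * i) ≤ s * (1 + δ) * (c * (Real.log q) ^ 2)) ∧
        (q : ℝ) ^ (1 - η) ≤ A.card := by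
  classical
  obtain ⟨R, hR, hRδ⟩ := exists_R (δ / 4) (by positivity)
  obtain ⟨D, hD⟩ : ∃ D : ℕ, D = 8 * R + 18 := ⟨_, rfl⟩
  have hsq : Tendsto (fun q : ℕ => q ^ 2) atTop atTop := tendsto_pow_atTop two_ne_zero
  have E1 := hsq.eventually (T_small T hTs D (by omega) (1 / 8) (by norm_num))
  have E2 := log_sq_small c (1 / 4) hc (by norm_num)
  have E3 : ∀ᶠ q : ℕ in atTop, 32 / δ ≤ (q : ℝ) ^ (1 / 4 : ℝ) :=
    ((tendsto_rpow_atTop (by norm_num)).comp tendsto_natCast_atTop_atTop).eventually_ge_atTop _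
  have E4 : ∀ᶠ q : ℕ in atTop, 16 / δ ≤ (q : ℝ) ^ (η / 2) :=
    ((tendsto_rpow_atTop (by positivity)).comp tendsto_natCast_atTop_atTop).eventually_ge_atTop _
  have E5 : ∀ᶠ q : ℕ in atTop, 1 ≤ c * (Real.log q) ^ 2 := by
    have h1 : ∀ᶠ q : ℕ in atTop, 1 / c ≤ Real.log q := tlog.eventually_ge_atTop _
    filter_upwards [h1, tlog.eventually_ge_atTop 1] with q g1 g2
    rw [div_le_iff₀ hc] at g1
    nlinarith
  filter_upwards [E1, E2, E3, E4, E5, eventually_ge_atTop 4] with q g1 g2 g3 g4 g5 g6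
  intro hq P hP hM1 hV
  have hq1 : (1 : ℝ) ≤ q := by exact_mod_cast (by omega : 1 ≤ q)
  have hq0 : (0 : ℝ) < q := by linarith
  have hPp : ∀ p ∈ P, p.Prime := fun p hp => (hP p hp).1
  obtain ⟨B, hB⟩ : ∃ B, B = ∏ p ∈ P, (1 - 1 / (p : ℝ)) := ⟨_, rfl⟩
  have hBpos : 0 < B := by rw [hB]; exact prod_pos' hPp
  obtain ⟨y, hy⟩ : ∃ y : ℝ, y = c * (Real.log q) ^ 2 := ⟨_, rfl⟩
  rw [← hy] at g2 g5 hV
  rw [← hy]
  rw [← hB] at hV
  have hy0 : 0 < y := by linarith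
  obtain ⟨Y, hY⟩ : ∃ Y, Y = wn c q := ⟨_, rfl⟩
  rw [← hY] at hV
  rw [← hY]
  have hYy : (Y : ℝ) ≤ y := by rw [hY, hy]; exact Nat.floor_le (by positivity)
  obtain ⟨M, hM⟩ : ∃ M, M = ∏ p ∈ P, p := ⟨_, rfl⟩
  rw [← hM] at hM1
  have hMpos : 0 < M := by
    rw [hM]
    exact prod_pos fun p hp => (hPp p hp).pos
  -- the primes of `P` do not divide `q`
  have hMq : M < q := by
    have h1 : (q : ℝ) ^ (η / 2) < (q : ℝ) ^ (1 : ℝ) := by
      apply Real.rpow_lt_rpow_of_exponent_lt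
      · exact_mod_cast (by omega : 1 < q)
      · linarith
    rw [Real.rpow_one] at h1
    exact_mod_cast hM1.trans_lt h1
  have hpq : ∀ p ∈ P, ∀ i, p ∣ q * i ↔ p ∣ i := by
    intro p hp i
    have h1 : p ≤ M := by
      rw [hM]
      exact Nat.le_of_dvd (by rw [← hM]; exact hMpos) (dvd_prod_of_mem _ hp)
    rw [(hPp p hp).dvd_mul]
    constructor
    · rintro (h | h)
      · have := (Nat.prime_dvd_prime_iff_eq (hPp p hp) hq).1 h
        omega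
      · exact h
    · exact fun h => Or.inr h
  obtain ⟨K, hK⟩ : ∃ K, K = (q - 1) / (2 * M) := ⟨_, rfl⟩
  have hKM : 2 * M * K ≤ q - 1 := by rw [hK]; exact Nat.mul_div_le (q - 1) (2 * M)
  have hKM2 : q - 1 < 2 * M * (K + 1) := by rw [hK]; exact Nat.lt_mul_div_succ (q - 1) (by omega)
  have hKM3 : q ≤ 2 * M * (K + 1) := by omega
  have hKq : (q : ℝ) ^ (1 - η / 2) ≤ 2 * (K + 1) := by
    have h1 : (q : ℝ) ≤ 2 * M * (K + 1) := by exact_mod_cast hKM3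
    have h2 : (q : ℝ) = (q : ℝ) ^ (η / 2) * (q : ℝ) ^ (1 - η / 2) := by
      rw [← Real.rpow_add hq0]; norm_num
    have h3 : 0 < (q : ℝ) ^ (η / 2) := Real.rpow_pos_of_pos hq0 _
    have h4 : (q : ℝ) ^ (η / 2) * (q : ℝ) ^ (1 - η / 2) ≤ (q : ℝ) ^ (η / 2) * (2 * (K + 1)) := by
      rw [← h2]
      refine h1.trans ?_
      have : (M : ℝ) * (2 * (K + 1)) ≤ (q : ℝ) ^ (η / 2) * (2 * (K + 1)) := by gcongr
      linarith
    exact le_of_mul_le_mul_left h4 h3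
  have hq34 : (q : ℝ) ^ (3 / 4 : ℝ) ≤ (q : ℝ) ^ (1 - η / 2) :=
    Real.rpow_le_rpow_of_exponent_le hq1 (by linarith)
  have hq12 : (q : ℝ) ^ (1 / 2 : ℝ) * (q : ℝ) ^ (1 / 4 : ℝ) = (q : ℝ) ^ (3 / 4 : ℝ) := by
    rw [← Real.rpow_add hq0]; norm_num
  have hq14 : (q : ℝ) ^ (1 / 4 : ℝ) * (q : ℝ) ^ (1 / 4 : ℝ) = (q : ℝ) ^ (1 / 2 : ℝ) := by
    rw [← Real.rpow_add hq0]; norm_num
  have h32 : 32 ≤ 32 / δ := by
    rw [le_div_iff₀ hδ]; linarith
  have hq14p : 0 < (q : ℝ) ^ (1 / 4 : ℝ) := Real.rpow_pos_of_pos hq0 _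
  have hq12p : 0 < (q : ℝ) ^ (1 / 2 : ℝ) := Real.rpow_pos_of_pos hq0 _
  have hbig : 4 ≤ (q : ℝ) ^ (1 - η / 2) := by nlinarith
  have hK4 : (q : ℝ) ^ (1 - η / 2) ≤ 4 * K := by linarith
  have hK0 : (0 : ℝ) < K := by linarith
  -- the columns
  have hx : ∀ p ∈ P, p ≤ T (q / 3) := fun p hp => (hP p hp).2
  have hJ : ∀ j, K < j → q / 3 ≤ (∏ q ∈ P, q) * j := by
    intro j hj
    rw [← hM]
    have h1 : M * (K + 1) ≤ M * j := Nat.mul_le_mul_left M hj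
    have h2 : 2 * M * (K + 1) = 2 * (M * (K + 1)) := by ring
    omega
  have hYq : (Y : ℝ) + 1 ≤ (q : ℝ) ^ (1 / 4 : ℝ) := by linarith
  have hYq2 : Y + 1 ≤ q := by
    have h1 : (q : ℝ) ^ (1 / 4 : ℝ) ≤ q := by
      conv_rhs => rw [← Real.rpow_one (q : ℝ)]
      exact Real.rpow_le_rpow_of_exponent_le hq1 (by norm_num)
    have : (Y : ℝ) + 1 ≤ q := hYq.trans h1
    exact_mod_cast this
  have hTt : ∀ i ∈ range (Y + 1), T ((∏ q ∈ P, q) * (K + K) + q * i) ≤ T (3 * q ^ 2) := by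
    intro i hi
    rw [mem_range] at hi
    apply hT
    rw [← hM]
    have h1 : M * (K + K) = 2 * M * K := by ring
    have h2 : q * i ≤ q * q := Nat.mul_le_mul_left q (by omega)
    have h3 : q ≤ q * q := Nat.le_mul_self q
    rw [h1, sq]
    omega
  have herr : ((T (3 * q ^ 2) : ℝ) + 2) ^ D ≤ (q : ℝ) ^ (1 / 4 : ℝ) := by
    refine g1.trans (le_of_eq ?_)
    push_cast
    rw [← Real.rpow_natCast, ← Real.rpow_mul hq0.le]
    norm_num
  obtain ⟨Er', hEr'⟩ : ∃ Er', Er' = ((T (3 * q ^ 2) : ℝ) + 2) ^ D := ⟨_, rfl⟩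
  have hEr0 : 0 ≤ Er' := by rw [hEr']; positivity
  have hcol : ∀ i ∈ range (Y + 1), ∑ j ∈ Ioc K (K + K), fT T (M * j + q * i) ≤
      if ∀ p ∈ P, ¬ p ∣ i then ((1 + δ / 4) * (B⁻¹ * K) + Er') else 0 := by
    intro i hi
    have h2 := column R hR T hT P hPp (q / 3) K K (q * i) (T (3 * q ^ 2)) hx hJ (hTt i hi)
    rw [← hM, ← hB, ← hD, ← hEr'] at h2
    by_cases h3 : ∀ p ∈ P, ¬ p ∣ i
    · rw [if_pos h3]
      rw [if_pos (fun p hp => by rw [hpq p hp]; exact h3 p hp)] at h2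
      refine h2.trans ?_
      have h4 : (1 + 2 ^ 25 * (1 / 2) ^ (2 * R)) * (B⁻¹ * K) ≤ (1 + δ / 4) * (B⁻¹ * K) := by
        gcongr
      linarith
    · rw [if_neg h3]
      rw [if_neg (fun h => h3 (fun p hp => by have := h p hp; rwa [hpq p hp] at this))] at h2
      exact h2
  obtain ⟨V', hV'⟩ : ∃ V' : ℕ, V' = ((range (Y + 1)).filter (fun i => ∀ p ∈ P, ¬ p ∣ i)).card :=
    ⟨_, rfl⟩
  have hVV : (V' : ℝ) ≤ s * (y * B) := by rw [hV']; exact hV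
  have hVY : (V' : ℝ) ≤ Y + 1 := by
    have h1 : V' ≤ Y + 1 := by
      rw [hV']
      exact (card_filter_le _ _).trans (by rw [card_range])
    exact_mod_cast h1
  have htot : ∑ j ∈ Ioc K (K + K), ∑ i ∈ range (Y + 1), fT T (M * j + q * i) ≤
      s * (1 + δ / 2) * (y * K) := by
    rw [sum_comm]
    refine (sum_le_sum hcol).trans ?_
    rw [← sum_filter, sum_const, nsmul_eq_mul, ← hV', mul_add]
    have h3 : (V' : ℝ) * ((1 + δ / 4) * (B⁻¹ * K)) ≤ s * (y * B) * ((1 + δ / 4) * (B⁻¹ * K)) := by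
      gcongr
    have h4 : s * (y * B) * ((1 + δ / 4) * (B⁻¹ * K)) = s * (1 + δ / 4) * (y * K) := by
      field_simp
    have h5 : (V' : ℝ) * Er' ≤ (q : ℝ) ^ (1 / 4 : ℝ) * (q : ℝ) ^ (1 / 4 : ℝ) := by
      apply mul_le_mul (hVY.trans hYq) _ hEr0 hq14p.le
      rw [hEr']
      exact herr
    have h6 : (q : ℝ) ^ (1 / 2 : ℝ) ≤ δ / 8 * K := by
      have h7 : (32 / δ) * (q : ℝ) ^ (1 / 2 : ℝ) ≤ 4 * K := by
        calc (32 / δ) * (q : ℝ) ^ (1 / 2 : ℝ) ≤ (q : ℝ) ^ (1 / 4 : ℝ) * (q : ℝ) ^ (1 / 2 : ℝ) := by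
              gcongr
          _ = (q : ℝ) ^ (3 / 4 : ℝ) := by rw [mul_comm]; exact hq12
          _ ≤ 4 * K := hq34.trans hK4
      have h8 : (32 / δ) * (q : ℝ) ^ (1 / 2 : ℝ) * (δ / 32) = (q : ℝ) ^ (1 / 2 : ℝ) := by field_simp
      have h9 : (32 / δ) * (q : ℝ) ^ (1 / 2 : ℝ) * (δ / 32) ≤ 4 * K * (δ / 32) := by gcongr
      rw [h8] at h9
      linarith
    have h7 : δ / 8 * (K : ℝ) ≤ s * (δ / 4) * (y * K) := by
      have h8 : (1 : ℝ) / 2 * 1 ≤ s * y := by gcongr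
      have h9 : 0 < δ * K := by positivity
      nlinarith
    rw [hq14] at h5
    nlinarith
  -- the good classes
  obtain ⟨Gd, hGd⟩ : ∃ Gd, Gd = (Ioc K (K + K)).filter
      (fun j => ∑ i ∈ range (Y + 1), fT T (M * j + q * i) ≤ s * (1 + δ) * y) := ⟨_, rfl⟩
  have hs0 : 0 < s := by linarith
  have hGc : δ / 4 * K ≤ Gd.card := by
    obtain ⟨Bd, hBd⟩ : ∃ Bd, Bd = (Ioc K (K + K)).filter
      (fun j => ¬ ∑ i ∈ range (Y + 1), fT T (M * j + q * i) ≤ s * (1 + δ) * y) := ⟨_, rfl⟩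
    have h1 : (Gd.card : ℝ) + Bd.card = K := by
      have := card_filter_add_card_filter_not (s := Ioc K (K + K))
        (fun j => ∑ i ∈ range (Y + 1), fT T (M * j + q * i) ≤ s * (1 + δ) * y)
      rw [← hGd, ← hBd, Nat.card_Ioc] at this
      have h2 : Gd.card + Bd.card = K := by omega
      exact_mod_cast h2
    have h2 : (Bd.card : ℝ) * (s * (1 + δ) * y) ≤ s * (1 + δ / 2) * (y * K) := by
      refine le_trans ?_ htot
      rw [← nsmul_eq_mul, ← sum_const]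
      refine le_trans (sum_le_sum (fun j hj => ?_)) (sum_le_sum_of_subset_of_nonneg
        (by rw [hBd]; exact filter_subset _ _) (fun j _ _ => sum_nonneg fun h _ => fT_nonneg T _))
      rw [hBd, mem_filter] at hj
      exact (not_le.1 hj.2).le
    have h3 : (Bd.card : ℝ) * (1 + δ) ≤ (1 + δ / 2) * K := by
      have h4 : ((Bd.card : ℝ) * (1 + δ)) * (s * y) ≤ ((1 + δ / 2) * K) * (s * y) := by linarith
      exact le_of_mul_le_mul_right h4 (by positivity)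
    have h5 : (0 : ℝ) ≤ Gd.card := Nat.cast_nonneg _
    have h6 : (Bd.card : ℝ) = K - Gd.card := by linarith
    rw [h6] at h3
    nlinarith
  refine ⟨Gd.image (fun j => M * j), ?_, ?_⟩
  · intro a ha
    rw [mem_image] at ha
    obtain ⟨j, hj, rfl⟩ := ha
    rw [hGd, mem_filter, mem_Ioc] at hj
    obtain ⟨⟨h1, h2⟩, h3⟩ := hj
    have h4 : M * (K + 1) ≤ M * j := Nat.mul_le_mul_left M h1
    have h5 : M * j ≤ M * (K + K) := Nat.mul_le_mul_left M h2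
    have h6 : M * (K + K) = 2 * M * K := by ring
    have h7 : 2 * M * (K + 1) = 2 * (M * (K + 1)) := by ring
    refine ⟨by omega, by omega, by omega, h3⟩
  · rw [card_image_of_injective _ (fun i j h => Nat.eq_of_mul_eq_mul_left hMpos h)]
    refine le_trans ?_ hGc
    have h1 : (q : ℝ) ^ (1 - η / 2) = (q : ℝ) ^ (1 - η) * (q : ℝ) ^ (η / 2) := by
      rw [← Real.rpow_add hq0]
      congr 1
      ring
    have h2 : 0 < (q : ℝ) ^ (1 - η) := Real.rpow_pos_of_pos hq0 _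
    have h3 : (q : ℝ) ^ (1 - η) * (16 / δ) ≤ (q : ℝ) ^ (1 - η) * (q : ℝ) ^ (η / 2) := by gcongr
    rw [← h1] at h3
    have h4 : (q : ℝ) ^ (1 - η) * (16 / δ) * (δ / 16) = (q : ℝ) ^ (1 - η) := by field_simp
    have h5 : (q : ℝ) ^ (1 - η) * (16 / δ) * (δ / 16) ≤ 4 * K * (δ / 16) := by
      apply mul_le_mul_of_nonneg_right (h3.trans hK4) (by positivity)
    rw [h4] at h5
    linarith

/-- the classes with about the expected weight, for all sieves -/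
theorem aavg (T : ℕ → ℕ) (hT : Monotone T)
    (hTs : ∀ ε : ℝ, 0 < ε → ∀ᶠ n : ℕ in atTop, (T n : ℝ) ≤ (n : ℝ) ^ ε) (c η δ : ℝ)
    (hc : 0 < c) (hη : 0 < η) (hη2 : η ≤ 1 / 2) (hδ : 0 < δ) (hδ1 : δ ≤ 1) :
    ∀ᶠ q : ℕ in atTop, q.Prime →
      ∃ A : Finset ℕ, (∀ a ∈ A, 1 ≤ a ∧ a < q ∧ q ≤ 3 * a ∧
        ∑ i ∈ range (wn c q + 1), fT T (a + q * i) ≤ (1 + δ) * (c * (Real.log q) ^ 2)) ∧
        (q : ℝ) ^ (1 - η) ≤ A.card := by
  have h := apoor_core T hT hTs c η (δ / 4) (1 + δ / 4) hc hη hη2 (by positivity) (by linarith)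
    (by linarith)
  have E : ∀ᶠ q : ℕ in atTop, 1 ≤ δ / 4 * (c * (Real.log q) ^ 2) := by
    have h1 : ∀ᶠ q : ℕ in atTop, 4 / (δ * c) ≤ Real.log q := tlog.eventually_ge_atTop _
    filter_upwards [h1, tlog.eventually_ge_atTop 1] with q g1 g2
    rw [div_le_iff₀ (by positivity)] at g1
    nlinarith [mul_pos hδ hc]
  filter_upwards [h, E, eventually_ge_atTop 1] with q g1 g2 g3 hq
  have hq1 : (1 : ℝ) ≤ q := by exact_mod_cast g3
  obtain ⟨A, hA1, hA2⟩ := g1 hq ∅ (by simp) (by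
    simp only [prod_empty, Nat.cast_one]
    exact Real.one_le_rpow hq1 (by positivity)) (by
      simp only [notMem_empty, false_implies, implies_true, filter_true, card_range, prod_empty,
        mul_one]
      push_cast
      have : (wn c q : ℝ) ≤ c * (Real.log q) ^ 2 := Nat.floor_le (by positivity)
      linarith)
  refine ⟨A, fun a ha => ?_, hA2⟩
  obtain ⟨h1, h2, h3, h4⟩ := hA1 a ha
  refine ⟨h1, h2, h3, h4.trans ?_⟩
  have h5 : 0 ≤ c * (Real.log q) ^ 2 := by positivity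
  have h6 : (1 + δ / 4) * (1 + δ / 4) ≤ 1 + δ := by nlinarith
  exact mul_le_mul_of_nonneg_right h6 h5

/-- large sieves: many classes have less than the expected weight -/
theorem apoor (θ : ℝ) (hθ : 0 < θ) : ∃ δ : ℝ, 0 < δ ∧ δ ≤ 1 / 4 ∧
    ∀ (T : ℕ → ℕ), Monotone T →
      (∀ ε : ℝ, 0 < ε → ∀ᶠ n : ℕ in atTop, (T n : ℝ) ≤ (n : ℝ) ^ ε) →
      (∀ᶠ n : ℕ in atTop, (Real.log n) ^ θ ≤ T n) →
      ∀ c η : ℝ, 1 ≤ c → 0 < η → η ≤ 1 / 2 → ∀ᶠ q : ℕ in atTop, q.Prime →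
        ∃ A : Finset ℕ, (∀ a ∈ A, 1 ≤ a ∧ a < q ∧ q ≤ 3 * a ∧
          ∑ i ∈ range (wn c q + 1), fT T (a + q * i) ≤ (1 - δ) * (c * (Real.log q) ^ 2)) ∧
          (q : ℝ) ^ (1 - η) ≤ A.card := by
  classical
  obtain ⟨κ, δ₀, hκ, hδ₀, hδ₀1, H⟩ := cnt (θ / 2) 2 (by positivity) (by norm_num)
  obtain ⟨δ, hδ, hδ1, hδ2⟩ : ∃ δ : ℝ, 0 < δ ∧ δ ≤ 1 / 4 ∧ δ ≤ δ₀ :=
    ⟨min (1 / 4) δ₀, lt_min (by norm_num) hδ₀, min_le_left _ _, min_le_right _ _⟩
  refine ⟨δ, hδ, hδ1, fun T hT hTs hTl c η hc hη hη2 => ?_⟩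
  have h := apoor_core T hT hTs c η δ (1 - 2 * δ) (by linarith) hη hη2 hδ (by linarith) (by linarith)
  have E1 := tlog.eventually (H (η / 2) (by positivity))
  have E2 : ∀ᶠ x : ℕ in atTop, c ≤ (Real.log x) ^ κ :=
    ((tendsto_rpow_atTop hκ).comp tlog).eventually_ge_atTop _
  have hdiv : Tendsto (fun q : ℕ => q / 3) atTop atTop := Nat.tendsto_div_const_atTop (by norm_num)
  have E3 := hdiv.eventually hTl
  have E4 : ∀ᶠ q : ℕ in atTop, 1 < 2 * δ * (c * (Real.log q) ^ 2) := by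
    have h1 : ∀ᶠ q : ℕ in atTop, 1 / δ ≤ Real.log q := tlog.eventually_ge_atTop _
    filter_upwards [h1, tlog.eventually_ge_atTop 1] with q g1 g2
    rw [div_le_iff₀ hδ] at g1
    nlinarith [mul_le_mul_of_nonneg_right hc (sq_nonneg (Real.log q))]
  have E5 : ∀ᶠ q : ℕ in atTop, (Real.log q) ^ (θ / 2) ≤ (Real.log ((q / 3 : ℕ) : ℝ)) ^ θ := by
    filter_upwards [tlog.eventually_ge_atTop 9, eventually_ge_atTop 6] with q g1 g2
    have hq0 : (0 : ℝ) < q := by exact_mod_cast (by omega : 0 < q)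
    have h1 : (q : ℝ) / 6 ≤ ((q / 3 : ℕ) : ℝ) := by
      have : q ≤ 6 * (q / 3) := by omega
      have : (q : ℝ) ≤ 6 * ((q / 3 : ℕ) : ℝ) := by exact_mod_cast this
      linarith
    have h2 : Real.log q - 2 ≤ Real.log ((q / 3 : ℕ) : ℝ) := by
      refine le_trans ?_ (Real.log_le_log (by positivity) h1)
      rw [Real.log_div hq0.ne' (by norm_num)]
      have h3 : Real.log 6 ≤ 2 := by
        rw [Real.log_le_iff_le_exp (by norm_num)]
        have h8 : (2.7182818283 : ℝ) < Real.exp 1 := Real.exp_one_gt_d9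
        have h9 : Real.exp 2 = Real.exp 1 * Real.exp 1 := by rw [← Real.exp_add]; norm_num
        rw [h9]
        nlinarith
      linarith
    have h3 : (Real.log q) ^ (1 / 2 : ℝ) ≤ Real.log ((q / 3 : ℕ) : ℝ) := by
      refine le_trans ?_ h2
      rw [← Real.sqrt_eq_rpow]
      rw [Real.sqrt_le_left (by linarith)]
      nlinarith
    have h4 : (0 : ℝ) ≤ Real.log q := by linarith
    calc (Real.log q) ^ (θ / 2) = ((Real.log q) ^ (1 / 2 : ℝ)) ^ θ := by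
          rw [← Real.rpow_mul h4]
          congr 1
          ring
      _ ≤ _ := Real.rpow_le_rpow (by positivity) h3 hθ.le
  filter_upwards [h, E1, E2, E3, E4, E5, tlog.eventually_ge_atTop 1, eventually_ge_atTop 1] with
    q g1 g2 g3 g4 g5 g6 g7 g8 hq
  obtain ⟨P, hP1, hP2, hP3⟩ := g2
  have hq1 : (1 : ℝ) ≤ q := by exact_mod_cast g8
  have hq0 : (0 : ℝ) < q := by linarith
  obtain ⟨L, hL⟩ : ∃ L, L = Real.log q := ⟨_, rfl⟩
  rw [← hL] at g3 g5 g6 g7 hP1 hP2 hP3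
  have hL0 : 0 < L := by linarith
  have hPp : ∀ p ∈ P, p.Prime := fun p hp => (hP1 p hp).1
  obtain ⟨B, hB⟩ : ∃ B, B = ∏ p ∈ P, (1 - 1 / (p : ℝ)) := ⟨_, rfl⟩
  have hBpos : 0 < B := by rw [hB]; exact prod_pos' hPp
  obtain ⟨y, hy⟩ : ∃ y : ℝ, y = c * L ^ 2 := ⟨_, rfl⟩
  rw [← hy] at g5
  have hy0 : 0 < y := by rw [hy]; positivity
  obtain ⟨Y, hY⟩ : ∃ Y, Y = ⌊y⌋₊ := ⟨_, rfl⟩
  have hYw : wn c q = Y := by rw [hY, hy, hL]; rfl
  have hV : (V P Y : ℝ) ≤ (1 - 2 * δ) * (y * B) := by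
    have h1 := hP3 y (by rw [Real.rpow_two, hy]; nlinarith [sq_nonneg L]) (by
      rw [Real.rpow_add hL0, Real.rpow_two, hy, mul_comm]
      exact mul_le_mul_of_nonneg_left g3 (by positivity))
    have h2 : rel P y = (V P Y : ℝ) / (y * B) := by rw [hY, hB]; rfl
    rw [h2] at h1
    have h3 : (V P Y : ℝ) / (y * B) ≤ 1 - 2 * δ := by linarith
    rwa [div_le_iff₀ (by positivity)] at h3
  have hne : P.Nonempty := by
    rw [nonempty_iff_ne_empty]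
    rintro rfl
    have h1 : V ∅ Y = Y := by
      unfold V
      simp
    rw [h1, hB, prod_empty, mul_one] at hV
    have h2 : y < Y + 1 := by rw [hY]; exact Nat.lt_floor_add_one y
    nlinarith
  have hcard : ((range (Y + 1)).filter (fun i => ∀ p ∈ P, ¬ p ∣ i)).card = V P Y := by
    unfold V
    congr 1
    ext i
    simp only [mem_filter, mem_range, mem_Icc]
    constructor
    · rintro ⟨h1, h2⟩
      refine ⟨⟨?_, by omega⟩, h2⟩
      obtain ⟨p, hp⟩ := hne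
      by_contra h3
      have h4 : i = 0 := by omega
      exact h2 p hp (by rw [h4]; exact dvd_zero p)
    · rintro ⟨h1, h2⟩
      exact ⟨by omega, h2⟩
  obtain ⟨A, hA1, hA2⟩ := g1 hq P (fun p hp => ⟨hPp p hp, by
    have h1 : (p : ℝ) ≤ T (q / 3) := ((hP1 p hp).2).trans (g6.trans g4)
    exact_mod_cast h1⟩) (by
      rw [Real.rpow_def_of_pos hq0, ← hL, mul_comm]
      exact hP2) (by
      rw [hYw, hcard, ← hL, ← hy, ← hB]
      exact hV)
  refine ⟨A, fun a ha => ?_, hA2⟩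
  obtain ⟨h1, h2, h3, h4⟩ := hA1 a ha
  refine ⟨h1, h2, h3, h4.trans ?_⟩
  have h5 : 0 ≤ c * (Real.log q) ^ 2 := by positivity
  have h6 : (1 - 2 * δ) * (1 + δ) ≤ 1 - δ := by nlinarith
  exact mul_le_mul_of_nonneg_right h6 h5

/-- small sieves: all classes have at least about the expected weight -/
theorem areg (ε : ℝ) (hε : 0 < ε) : ∃ θ : ℝ, 0 < θ ∧ ∀ (T : ℕ → ℕ), Monotone T →
    (∀ᶠ n : ℕ in atTop, (T n : ℝ) ≤ (Real.log n) ^ θ) → ∀ c : ℝ, 0 < c → ∀ᶠ q : ℕ in atTop,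
      q.Prime → ∀ a : ℕ, 1 ≤ a → a < q →
        (1 - ε) * (c * (Real.log q) ^ 2) ≤ ∑ i ∈ Ioc 0 (wn c q), fT T (a + q * i) := by
  classical
  obtain ⟨R, hR, hRδ⟩ := exists_R (ε / 2) (by positivity)
  obtain ⟨D, hD⟩ : ∃ D : ℕ, D = 8 * R + 18 := ⟨_, rfl⟩
  have hD0 : (0 : ℝ) < D := by rw [hD]; positivity
  refine ⟨1 / D, by positivity, fun T hT hTs c hc => ?_⟩
  have hsq : Tendsto (fun q : ℕ => q ^ 2) atTop atTop := tendsto_pow_atTop two_ne_zero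
  have e1 := hsq.eventually hTs
  have e2 : ∀ᶠ x : ℕ in atTop, c * (Real.log x) ^ 2 + 1 ≤ (x : ℝ) ^ (1 : ℝ) :=
    log_sq_small c 1 hc one_pos
  have e3 : ∀ᶠ x : ℕ in atTop, (2 / (ε * c)) * (3 ^ D * 2 + 1) ≤ Real.log x := tlog.eventually_ge_atTop _
  have e4 : ∀ᶠ q : ℕ in atTop, (T (q ^ 2) : ℝ) < q := by
    have h1 := sub_pow T (1 / D) hTs (1 / 4) (by norm_num)
    filter_upwards [hsq.eventually h1, eventually_ge_atTop 2] with q g1 g2
    have hq1 : (1 : ℝ) < q := by exact_mod_cast g2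
    have hq0 : (0 : ℝ) < q := by linarith
    have h2 : (((q ^ 2 : ℕ) : ℝ)) ^ (1 / 4 : ℝ) = (q : ℝ) ^ (1 / 2 : ℝ) := by
      push_cast
      rw [← Real.rpow_natCast, ← Real.rpow_mul hq0.le]
      norm_num
    rw [h2] at g1
    calc (T (q ^ 2) : ℝ) ≤ (q : ℝ) ^ (1 / 2 : ℝ) := g1
      _ < (q : ℝ) ^ (1 : ℝ) := Real.rpow_lt_rpow_of_exponent_lt hq1 (by norm_num)
      _ = q := Real.rpow_one _
  filter_upwards [e1, e2, e3, e4, tlog.eventually_ge_atTop 1, eventually_ge_atTop 2] with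
    q g1 g2 g3 g4 g5 g6
  intro hq a ha1 haq
  have hq0 : (0 : ℝ) < q := by exact_mod_cast (by omega : 0 < q)
  rw [Real.rpow_one] at g2
  obtain ⟨L, hL⟩ : ∃ L, L = Real.log q := ⟨_, rfl⟩
  obtain ⟨K, hK⟩ : ∃ K, K = wn c q := ⟨_, rfl⟩
  have hKL : (K : ℝ) ≤ c * L ^ 2 := by
    rw [hK, hL]
    exact Nat.floor_le (by positivity)
  have hKL2 : c * L ^ 2 - 1 ≤ K := by
    rw [hK, hL]
    exact (Nat.sub_one_lt_floor _).le
  rw [← hL] at g2 g3 g5
  rw [← hK, ← hL]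
  have hKq : K + 1 ≤ q := by
    have : (K : ℝ) + 1 ≤ q := by linarith
    exact_mod_cast this
  have haK : a + q * K ≤ q ^ 2 := by
    have h1 : q * (K + 1) ≤ q * q := Nat.mul_le_mul_left q hKq
    rw [sq]
    have h2 : q * (K + 1) = q * K + q := by ring
    omega
  obtain ⟨t, ht⟩ : ∃ t, t = T (q ^ 2) := ⟨_, rfl⟩
  have htq : t < q := by rw [ht]; exact_mod_cast g4
  obtain ⟨u, hu⟩ := crt {q} (by simpa using hq) a t
  simp only [prod_singleton, mem_singleton] at hu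
  have hg : Monotone (fun j => T (a + q * j)) := by
    intro i j hij
    apply hT
    have := Nat.mul_le_mul_left q hij
    omega
  have hst := stretch R hR (fun j => T (a + q * j)) hg ∅ (by simp) u 0 K (by simp)
  simp only [prod_empty, inv_one, one_mul, zero_add] at hst
  have he : ∑ i ∈ Ioc 0 K, fT T (a + q * i) = ∑ i ∈ Ioc 0 K, wt (fun j => T (a + q * j)) ∅ u i := by
    apply sum_congr rfl
    intro i hi
    rw [mem_Ioc] at hi
    unfold fT wt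
    congr 1
    apply propext
    have hti : T (a + q * i) ≤ t := by
      rw [ht]
      apply hT
      have := Nat.mul_le_mul_left q hi.2
      omega
    constructor
    · intro h1 p h2 h3 _
      have h7 : p ≤ t := h3.trans hti
      rw [← hu p h2 h7 (by omega) i, add_comm]
      exact h1 p h2 h3
    · intro h1 p h2 h3
      have h7 : p ≤ t := h3.trans hti
      rw [add_comm, hu p h2 h7 (by omega) i]
      exact h1 p h2 h3 (by simp)
  rw [he]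
  have h1 := (abs_le.1 hst).1
  have h2 := err_le R (T (a + q * K))
  have h3 : ((T (a + q * K) : ℝ) + 2) ^ (8 * R + 18) ≤ ((t : ℝ) + 2) ^ D := by
    rw [← hD]
    apply pow_le_pow_left₀ (by positivity)
    have h4 : T (a + q * K) ≤ t := by rw [ht]; exact hT haK
    have : (T (a + q * K) : ℝ) ≤ t := by exact_mod_cast h4
    linarith
  have h5 : ((t : ℝ) + 2) ^ D ≤ 3 ^ D * 2 * L := by
    have hl3 : Real.log ((q ^ 2 : ℕ) : ℝ) = 2 * L := by
      push_cast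
      rw [Real.log_pow, ← hL]
      norm_num
    have h4 : (1 : ℝ) ≤ (Real.log ((q ^ 2 : ℕ) : ℝ)) ^ (1 / (D : ℝ)) :=
      Real.one_le_rpow (by rw [hl3]; linarith) (by positivity)
    calc ((t : ℝ) + 2) ^ D ≤ (3 * (Real.log ((q ^ 2 : ℕ) : ℝ)) ^ (1 / (D : ℝ))) ^ D := by
          apply pow_le_pow_left₀ (by positivity)
          rw [ht]
          linarith
      _ = 3 ^ D * Real.log ((q ^ 2 : ℕ) : ℝ) := by
          rw [mul_pow, ← Real.rpow_natCast ((Real.log ((q ^ 2 : ℕ) : ℝ)) ^ (1 / (D : ℝ))) D,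
            ← Real.rpow_mul (by rw [hl3]; linarith), one_div, inv_mul_cancel₀ hD0.ne', Real.rpow_one]
      _ = 3 ^ D * 2 * L := by rw [hl3]; ring
  have h6 : 3 ^ D * 2 * L + 1 ≤ ε / 2 * (c * L ^ 2) := by
    have h4 : (3 ^ D * 2 + 1) ≤ ε * c / 2 * L := by
      have h5 : (2 / (ε * c)) * (3 ^ D * 2 + 1) * (ε * c / 2) ≤ L * (ε * c / 2) := by gcongr
      have h6 : (2 / (ε * c)) * (3 ^ D * 2 + 1 : ℝ) * (ε * c / 2) = 3 ^ D * 2 + 1 := by field_simp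
      linarith
    have h5 : (3 ^ D * 2 + 1) * L ≤ ε * c / 2 * L * L := by gcongr
    nlinarith
  have h7 : (2 : ℝ) ^ 25 * (1 / 2) ^ (2 * R) * K ≤ ε / 2 * (c * L ^ 2) := by
    gcongr
  linarith

end Pool.Agent.U839.Wg
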