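import Mathlib
import Pool.Agent.U839.Wg.Sm

set_option autoImplicit false

/-! # Finite arithmetic progressions and their intersections -/

open MeasureTheory ProbabilityTheory Filter Finset Topology

namespace Pool.Agent.U839.Wg

/-- the first `y + 1` terms of the progression `a, a + q, …` -/
def Sap (q a y : ℕ) : Finset ℕ := (range (y + 1)).image (fun i => a + q * i)

theorem mem_Sap {q a y m : ℕ} : m ∈ Sap q a y ↔ ∃ i ≤ y, a + q * i = m := by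
  unfold Sap
  rw [mem_image]
  constructor
  · rintro ⟨i, h1, h2⟩
    exact ⟨i, by rw [mem_range] at h1; omega, h2⟩
  · rintro ⟨i, h1, h2⟩
    exact ⟨i, by rw [mem_range]; omega, h2⟩

theorem Sap_inj {q : ℕ} (hq : 0 < q) (a : ℕ) : Function.Injective (fun i => a + q * i) := by
  intro i j h
  have h1 : q * i = q * j := Nat.add_left_cancel h
  exact Nat.eq_of_mul_eq_mul_left hq h1

theorem Sap_sum {q : ℕ} (hq : 0 < q) (a y : ℕ) (f : ℕ → ℝ) :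
    ∑ m ∈ Sap q a y, f m = ∑ i ∈ range (y + 1), f (a + q * i) := by
  unfold Sap
  rw [sum_image]
  intro i _ j _ h
  exact Sap_inj hq a h

theorem Sap_prod {q : ℕ} (hq : 0 < q) (a y : ℕ) (f : ℕ → ℝ) :
    ∏ m ∈ Sap q a y, f m = ∏ i ∈ range (y + 1), f (a + q * i) := by
  unfold Sap
  rw [prod_image]
  intro i _ j _ h
  exact Sap_inj hq a h

theorem Sap_disj {q a a' y y' : ℕ} (ha : a < q) (ha' : a' < q) (h : a ≠ a') :
    Disjoint (Sap q a y) (Sap q a' y') := by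
  rw [Finset.disjoint_left]
  intro m h1 h2
  obtain ⟨i, -, hi⟩ := mem_Sap.1 h1
  obtain ⟨j, -, hj⟩ := mem_Sap.1 h2
  apply h
  have e1 : m % q = a := by rw [← hi, Nat.add_mul_mod_self_left, Nat.mod_eq_of_lt ha]
  have e2 : m % q = a' := by rw [← hj, Nat.add_mul_mod_self_left, Nat.mod_eq_of_lt ha']
  rw [← e1, e2]

theorem Sap_inter {q q' a a' y y' : ℕ} (hq : q.Prime) (hq' : q'.Prime) (h : q ≠ q') (hy : y < q') :
    (Sap q a y ∩ Sap q' a' y').card ≤ 1 := by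
  have key : ∀ i j i' j' : ℕ, j ≤ y → i < j → a + q * i = a' + q' * i' → a + q * j = a' + q' * j' →
      False := by
    intro i j i' j' hj hij h1 h2
    have h3 : q * i < q * j := Nat.mul_lt_mul_of_pos_left hij hq.pos
    have h4 : i' < j' := by
      by_contra hcon
      have : q' * j' ≤ q' * i' := Nat.mul_le_mul_left q' (not_lt.1 hcon)
      omega
    obtain ⟨d, rfl⟩ : ∃ d, j = i + d := ⟨j - i, by omega⟩
    obtain ⟨e, rfl⟩ : ∃ e, j' = i' + e := ⟨j' - i', by omega⟩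
    have h5 : q * d = q' * e := by
      rw [Nat.mul_add, Nat.mul_add] at h2
      omega
    have h6 : q' ∣ q * d := ⟨e, h5⟩
    have h7 : q' ∣ d := by
      rcases (Nat.Prime.dvd_mul hq').1 h6 with h8 | h8
      · exact absurd ((Nat.prime_dvd_prime_iff_eq hq' hq).1 h8).symm h
      · exact h8
    have h8 := Nat.le_of_dvd (by omega) h7
    omega
  rw [Finset.card_le_one]
  intro m₁ h1 m₂ h2
  rw [Finset.mem_inter] at h1 h2
  obtain ⟨i₁, hi₁, e1⟩ := mem_Sap.1 h1.1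
  obtain ⟨j₁, -, e2⟩ := mem_Sap.1 h1.2
  obtain ⟨i₂, hi₂, e3⟩ := mem_Sap.1 h2.1
  obtain ⟨j₂, -, e4⟩ := mem_Sap.1 h2.2
  rcases Nat.lt_trichotomy i₁ i₂ with h3 | h3 | h3
  · exact (key i₁ i₂ j₁ j₂ hi₂ h3 (by rw [e1, e2]) (by rw [e3, e4])).elim
  · rw [← e1, ← e3, h3]
  · exact (key i₂ i₁ j₂ j₁ hi₁ h3 (by rw [e3, e4]) (by rw [e1, e2])).elim

/-- the number of intersecting pairs of progressions -/
theorem count_inter (I : Finset (ℕ × ℕ)) (Y : ℕ → ℕ) (D y : ℕ) (hD : ∀ z ∈ I, z.1 ≤ D)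
    (hy : ∀ z ∈ I, Y z.1 ≤ y) :
    ((I ×ˢ I).filter (fun z => z.1 ≠ z.2 ∧
      ¬ Disjoint (Sap z.1.1 z.1.2 (Y z.1.1)) (Sap z.2.1 z.2.2 (Y z.2.1)))).card ≤
      I.card * ((D + 1) * ((y + 1) * (y + 1))) := by
  classical
  have hsub : (I ×ˢ I).filter (fun z => z.1 ≠ z.2 ∧
      ¬ Disjoint (Sap z.1.1 z.1.2 (Y z.1.1)) (Sap z.2.1 z.2.2 (Y z.2.1))) ⊆
      (I ×ˢ (range (D + 1) ×ˢ (range (y + 1) ×ˢ range (y + 1)))).image
        (fun w => (w.1, (w.2.1, w.1.2 + w.1.1 * w.2.2.1 - w.2.1 * w.2.2.2))) := by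
    intro z hz
    rw [mem_filter, mem_product] at hz
    obtain ⟨⟨h1, h2⟩, -, h3⟩ := hz
    rw [Finset.not_disjoint_iff] at h3
    obtain ⟨m, h4, h5⟩ := h3
    obtain ⟨i, hi, e1⟩ := mem_Sap.1 h4
    obtain ⟨j, hj, e2⟩ := mem_Sap.1 h5
    rw [mem_image]
    refine ⟨(z.1, (z.2.1, (i, j))), ?_, ?_⟩
    · simp only [mem_product, mem_range]
      exact ⟨h1, Nat.lt_succ_of_le (hD _ h2), Nat.lt_succ_of_le (hi.trans (hy _ h1)),
        Nat.lt_succ_of_le (hj.trans (hy _ h2))⟩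
    · simp only
      have h6 : z.1.2 + z.1.1 * i - z.2.1 * j = z.2.2 := by omega
      rw [h6]
  refine (card_le_card hsub).trans (card_image_le.trans ?_)
  rw [card_product, card_product, card_product, card_range, card_range]

open Classical in
/-- the pairs `(q, a)`, `q ≤ D` prime, `1 ≤ a < q`, for which the first terms of the progression
`a, a + q, …` are not chosen -/
noncomputable def Cn {Ω : Type*} (E : ℕ → Set Ω) (Y : ℕ → ℕ) (ω : Ω) (D : ℕ) : Finset (ℕ × ℕ) :=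
  ((range (D + 1)) ×ˢ (range (D + 1))).filter (fun z => z.1.Prime ∧ 1 ≤ z.2 ∧ z.2 < z.1 ∧
    ∀ i ≤ Y z.1, ω ∉ E (z.2 + z.1 * i))

theorem mem_Cn {Ω : Type*} {E : ℕ → Set Ω} {Y : ℕ → ℕ} {ω : Ω} {D : ℕ} {z : ℕ × ℕ} :
    z ∈ Cn E Y ω D ↔ z.1 ≤ D ∧ z.1.Prime ∧ 1 ≤ z.2 ∧ z.2 < z.1 ∧
      ∀ i ≤ Y z.1, ω ∉ E (z.2 + z.1 * i) := by
  classical
  unfold Cn
  simp only [mem_filter, mem_product, mem_range]
  constructor
  · rintro ⟨⟨h1, h2⟩, h3⟩
    exact ⟨by omega, h3⟩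
  · rintro ⟨h1, h2, h3, h4, h5⟩
    exact ⟨⟨by omega, by omega⟩, h2, h3, h4, h5⟩

theorem Cn_mono {Ω : Type*} (E : ℕ → Set Ω) (Y : ℕ → ℕ) (ω : Ω) {D D' : ℕ} (h : D ≤ D') :
    Cn E Y ω D ⊆ Cn E Y ω D' := by
  intro z hz
  rw [mem_Cn] at hz ⊢
  exact ⟨hz.1.trans h, hz.2⟩

variable {Ω : Type*} [MeasurableSpace Ω] {μ : Measure Ω} [IsProbabilityMeasure μ]

/-- the scales -/
theorem scale (L η P lam : ℝ) (hL : 0 < L) (hη : 0 < η) (hP1 : P ≤ 1)
    (hP2 : Real.exp (-(lam * L)) ≤ P) : ∃ k : ℕ, k < ⌊lam / η⌋₊ + 1 ∧ (k : ℝ) * η ≤ lam ∧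
      Real.exp (-(((k : ℝ) + 1) * η * L)) ≤ P ∧ P ≤ Real.exp (-((k : ℝ) * η * L)) := by
  have hP0 : 0 < P := lt_of_lt_of_le (Real.exp_pos _) hP2
  have hηL : 0 < η * L := by positivity
  obtain ⟨t, ht⟩ : ∃ t, t = -Real.log P / (η * L) := ⟨_, rfl⟩
  have ht0 : 0 ≤ t := by
    rw [ht]
    exact div_nonneg (by linarith [Real.log_nonpos hP0.le hP1]) hηL.le
  have hlog : -(lam * L) ≤ Real.log P := by
    rw [← Real.log_exp (-(lam * L))]
    exact Real.log_le_log (Real.exp_pos _) hP2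
  have htl : t ≤ lam / η := by
    rw [ht, div_le_div_iff₀ hηL hη]
    nlinarith
  have e1 : (⌊t⌋₊ : ℝ) ≤ t := Nat.floor_le ht0
  have e2 : t < ⌊t⌋₊ + 1 := Nat.lt_floor_add_one t
  have e3 : t * (η * L) = -Real.log P := by
    rw [ht]
    field_simp
  refine ⟨⌊t⌋₊, Nat.lt_succ_of_le (Nat.floor_le_floor htl), ?_, ?_, ?_⟩
  · have := e1.trans htl
    rwa [le_div_iff₀ hη] at this
  · rw [← Real.exp_log hP0]
    apply Real.exp_le_exp.2
    have : t * (η * L) ≤ (⌊t⌋₊ + 1) * (η * L) := by gcongr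
    linarith
  · conv_lhs => rw [← Real.exp_log hP0]
    apply Real.exp_le_exp.2
    have : (⌊t⌋₊ : ℝ) * (η * L) ≤ t * (η * L) := by gcongr
    linarith

end Pool.Agent.U839.Wg
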