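import Mathlib
import Pool.Agent.U839.Wg.Ap
import Pool.Agent.U839.Disp.Pnt

set_option autoImplicit false

/-! # Many empty progressions -/

open MeasureTheory ProbabilityTheory Filter Finset Topology

namespace Pool.Agent.U839.Wg

open Pool.Agent.U839.Thin (tlog)
open Pool.Agent.U839.Disp (pi2 EB pnt_short)

theorem many_primes (η : ℝ) (hη : 0 < η) : ∀ᶠ D : ℕ in atTop,
    (D : ℝ) ^ (1 - η) ≤ ((Ioc (D / 2) D).filter Nat.Prime).card := by
  have e2 : ∀ᶠ D : ℕ in atTop, 4 * (Real.log D) ^ 2 + 1 ≤ (D : ℝ) ^ η := by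
    have h1 := (isLittleO_log_rpow_atTop (r := η / 4) (by positivity)).bound
      (show (0 : ℝ) < 1 by norm_num)
    have h2 : ∀ᶠ x : ℝ in atTop, (5 : ℝ) ≤ x ^ (η / 2) :=
      (tendsto_rpow_atTop (by positivity)).eventually_ge_atTop _
    filter_upwards [tendsto_natCast_atTop_atTop.eventually h1,
      tendsto_natCast_atTop_atTop.eventually h2, eventually_ge_atTop 1] with x g1 g2 g3
    have hx1 : (1 : ℝ) ≤ x := by exact_mod_cast g3
    have hx0 : (0 : ℝ) < x := by linarith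
    rw [Real.norm_of_nonneg (Real.log_nonneg hx1), Real.norm_of_nonneg (by positivity), one_mul] at g1
    have g4 : (Real.log x) ^ 2 ≤ ((x : ℝ) ^ (η / 4)) ^ 2 :=
      pow_le_pow_left₀ (Real.log_nonneg hx1) g1 2
    have g5 : ((x : ℝ) ^ (η / 4)) ^ 2 = (x : ℝ) ^ (η / 2) := by
      rw [← Real.rpow_natCast, ← Real.rpow_mul hx0.le]
      congr 1
      push_cast
      ring
    have g6 : (x : ℝ) ^ η = (x : ℝ) ^ (η / 2) * (x : ℝ) ^ (η / 2) := by
      rw [← Real.rpow_add hx0]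
      congr 1
      ring
    rw [g5] at g4
    rw [g6]
    nlinarith
  filter_upwards [pnt_short 1 le_rfl (1 / 4) (by norm_num), e2, tlog.eventually_ge_atTop 4,
    eventually_ge_atTop 16, tendsto_natCast_atTop_atTop.eventually
      (Real.isLittleO_log_id_atTop.bound (show (0 : ℝ) < 1 / 4 by norm_num))] with D g1 g2 g3 g4 g5
  have hD16 : (16 : ℝ) ≤ D := by exact_mod_cast g4
  have hD0 : (0 : ℝ) < D := by linarith
  obtain ⟨L, hL⟩ : ∃ L, L = Real.log D := ⟨_, rfl⟩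
  have hEB : EB 1 D = D / L := by unfold EB; rw [pow_one, hL]
  rw [← hL] at g2 g3 g5 g1
  rw [hEB] at g1
  have hL0 : 0 < L := by linarith
  obtain ⟨y, hy⟩ : ∃ y : ℕ, y = ⌊(D : ℝ) / L⌋₊ := ⟨_, rfl⟩
  have hy1 : (y : ℝ) ≤ D / L := by rw [hy]; exact Nat.floor_le (by positivity)
  have hy2 : (D : ℝ) / L < y + 1 := by rw [hy]; exact Nat.lt_floor_add_one _
  obtain ⟨h1, h2⟩ := g1 y (by
    have : 0 ≤ (D : ℝ) / L := by positivity
    linarith)
  have hyD : 2 * y ≤ D := by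
    have h3 : (D : ℝ) / L ≤ D / 2 := div_le_div_of_nonneg_left hD0.le (by norm_num) (by linarith)
    have : (2 * y : ℝ) ≤ D := by linarith
    exact_mod_cast this
  have hle : pi2 (D - y) D ≤ ((Ioc (D / 2) D).filter Nat.Prime).card := by
    unfold pi2
    apply card_le_card
    apply filter_subset_filter
    apply Finset.Ioc_subset_Ioc_left
    omega
  have h3 : (1 / 4 : ℝ) * (D / L / L) ≤ pi2 (D - y) D := by
    have h4 := (abs_le.1 h2).1
    have h5 : (D : ℝ) / L / L - 1 / L ≤ y / L := by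
      rw [← sub_div]
      gcongr
      linarith
    have hnorm : L ≤ 1 / 4 * D := by
      have := g5
      simp only [id] at this
      rw [Real.norm_of_nonneg hL0.le, Real.norm_of_nonneg hD0.le] at this
      exact this
    have h6 : 1 / L ≤ 1 / 4 * (D / L / L) := by
      rw [div_div, div_le_iff₀ hL0]
      have : 1 / 4 * (D / (L * L)) * L = (1 / 4 * D) / L := by field_simp
      rw [this, one_le_div hL0]
      exact hnorm
    linarith
  have h7 : (D : ℝ) ^ (1 - η) * D ^ η = D := by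
    rw [← Real.rpow_add hD0]
    norm_num
  have h8 : (D : ℝ) ^ (1 - η) ≤ 1 / 4 * (D / L / L) := by
    rw [div_div, ← mul_div_assoc, le_div_iff₀ (by positivity)]
    have h9 : 0 < (D : ℝ) ^ (1 - η) := Real.rpow_pos_of_pos hD0 _
    have h10 : (D : ℝ) ^ (1 - η) * (4 * L ^ 2 + 1) ≤ (D : ℝ) ^ (1 - η) * D ^ η := by gcongr
    rw [h7] at h10
    nlinarith
  calc (D : ℝ) ^ (1 - η) ≤ pi2 (D - y) D := h8.trans h3
    _ ≤ _ := by exact_mod_cast hle

variable {Ω : Type*} [MeasurableSpace Ω] {μ : Measure Ω} [IsProbabilityMeasure μ]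

theorem real_le_one (s : Set Ω) : μ.real s ≤ 1 := by
  have := prob_le_one (μ := μ) (s := s)
  rw [measureReal_def]
  exact ENNReal.toReal_le_of_le_ofReal zero_le_one (by rw [ENNReal.ofReal_one]; exact this)

theorem perD {E : ℕ → Set Ω} (hm : ∀ n, MeasurableSet (E n)) (hE : iIndepSet E μ) (Y : ℕ → ℕ)
    (lam η : ℝ) (hlam : 0 ≤ lam) (hη : 0 < η) (hη1 : η ≤ 1 / 20) (h2 : lam + 6 * η ≤ 2)
    (hY : ∀ ε : ℝ, 0 < ε → ∀ᶠ q : ℕ in atTop, (Y q : ℝ) + 1 ≤ (q : ℝ) ^ ε)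
    (h : ∀ᶠ q : ℕ in atTop, q.Prime → ∃ A : Finset ℕ, (∀ a ∈ A, 1 ≤ a ∧ a < q ∧
      (∀ i ≤ Y q, μ.real (E (a + q * i)) ≤ 1 / 2) ∧
        (q : ℝ) ^ (-lam) ≤ μ.real (Emp E (Sap q a (Y q)))) ∧ (q : ℝ) ^ (1 - η) ≤ A.card) :
    ∀ᶠ D : ℕ in atTop, μ.real {ω | ((Cn E Y ω D).card : ℝ) ≤ (D : ℝ) ^ (2 - lam - 6 * η)} ≤
      (D : ℝ) ^ (-η) := by
  classical
  obtain ⟨q₀, hq₀⟩ := eventually_atTop.1 (h.and (hY (η / 2) (by positivity)))
  have hA : ∀ q, ∃ A : Finset ℕ, q₀ ≤ q → q.Prime → (∀ a ∈ A, 1 ≤ a ∧ a < q ∧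
      (∀ i ≤ Y q, μ.real (E (a + q * i)) ≤ 1 / 2) ∧
        (q : ℝ) ^ (-lam) ≤ μ.real (Emp E (Sap q a (Y q)))) ∧ (q : ℝ) ^ (1 - η) ≤ A.card := by
    intro q
    by_cases hq : q₀ ≤ q ∧ q.Prime
    · obtain ⟨A, hA⟩ := (hq₀ q hq.1).1 hq.2
      exact ⟨A, fun _ _ => hA⟩
    · exact ⟨∅, fun h1 h2 => absurd ⟨h1, h2⟩ hq⟩
  choose A hA using hA
  obtain ⟨K₀, hK₀⟩ : ∃ K₀, K₀ = ⌊lam / η⌋₊ := ⟨_, rfl⟩
  have E1 : ∀ᶠ D : ℕ in atTop, 128 * ((K₀ : ℝ) + 1) ≤ (D : ℝ) ^ η :=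
    ((tendsto_rpow_atTop hη).comp tendsto_natCast_atTop_atTop).eventually_ge_atTop _
  have E2 : ∀ᶠ D : ℕ in atTop, (D / 2 : ℕ) ≥ q₀ :=
    (Nat.tendsto_div_const_atTop (by norm_num)).eventually_ge_atTop _
  have E3 : ∀ᶠ D : ℕ in atTop, (D : ℝ) ^ (η / 2) * 2 < D := by
    have h1 : ∀ᶠ D : ℕ in atTop, 3 ≤ (D : ℝ) ^ (1 - η / 2) :=
      ((tendsto_rpow_atTop (by linarith)).comp tendsto_natCast_atTop_atTop).eventually_ge_atTop _
    filter_upwards [h1, eventually_ge_atTop 1] with D g1 g2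
    have hD0 : (0 : ℝ) < D := by exact_mod_cast g2
    have h3 : (D : ℝ) = D ^ (η / 2) * D ^ (1 - η / 2) := by
      rw [← Real.rpow_add hD0]
      norm_num
    have h4 : 0 < (D : ℝ) ^ (η / 2) := Real.rpow_pos_of_pos hD0 _
    calc (D : ℝ) ^ (η / 2) * 2 < D ^ (η / 2) * 3 := by linarith
      _ ≤ D ^ (η / 2) * D ^ (1 - η / 2) := by gcongr
      _ = D := h3.symm
  filter_upwards [many_primes η hη, E1, E2, E3, eventually_ge_atTop 4] with D g1 g2 g3 g4 g5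
  have hD4 : (4 : ℝ) ≤ D := by exact_mod_cast g5
  have hD0 : (0 : ℝ) < D := by linarith
  have hD1 : (1 : ℝ) ≤ D := by linarith
  obtain ⟨L, hL⟩ : ∃ L, L = Real.log D := ⟨_, rfl⟩
  have hLpos : 0 < L := by rw [hL]; exact Real.log_pos (by linarith)
  have hpow : ∀ x : ℝ, (D : ℝ) ^ x = Real.exp (x * L) := fun x => by
    rw [Real.rpow_def_of_pos hD0, hL, mul_comm]
  -- the family
  obtain ⟨PP, hPP⟩ : ∃ PP, PP = (Ioc (D / 2) D).filter Nat.Prime := ⟨_, rfl⟩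
  rw [← hPP] at g1
  obtain ⟨I, hI⟩ : ∃ I : Finset (ℕ × ℕ), I = (PP.sigma A).map
    ⟨fun z => (z.1, z.2), by
      rintro ⟨a, b⟩ ⟨c, d⟩ h
      simp only [Prod.mk.injEq] at h
      obtain ⟨rfl, rfl⟩ := h
      rfl⟩ := ⟨_, rfl⟩
  have hmemI : ∀ z : ℕ × ℕ, z ∈ I ↔ z.1 ∈ PP ∧ z.2 ∈ A z.1 := by
    intro z
    rw [hI, Finset.mem_map]
    constructor
    · rintro ⟨w, hw, rfl⟩
      rw [mem_sigma] at hw
      exact hw
    · rintro ⟨h1, h2⟩
      exact ⟨⟨z.1, z.2⟩, by rw [mem_sigma]; exact ⟨h1, h2⟩, rfl⟩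
  have hIq : ∀ z ∈ I, z.1.Prime ∧ D / 2 < z.1 ∧ z.1 ≤ D ∧ q₀ ≤ z.1 := by
    intro z hz
    have h1 := ((hmemI z).1 hz).1
    rw [hPP, mem_filter, mem_Ioc] at h1
    exact ⟨h1.2, h1.1.1, h1.1.2, by omega⟩
  have hIA := fun z (hz : z ∈ I) => (hA z.1 (hIq z hz).2.2.2 (hIq z hz).1).1 z.2 ((hmemI z).1 hz).2
  have hIcard : Real.exp ((2 - 2 * η) * L) / 2 ≤ I.card := by
    have h1 : (I.card : ℝ) = ∑ q ∈ PP, ((A q).card : ℝ) := by
      rw [hI, card_map, card_sigma]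
      push_cast
      rfl
    have h2 : ∀ q ∈ PP, (D : ℝ) ^ (1 - η) / 2 ≤ (A q).card := by
      intro q hq
      rw [hPP, mem_filter, mem_Ioc] at hq
      have h3 := (hA q (by omega) hq.2).2
      refine le_trans ?_ h3
      have h4 : (D : ℝ) / 2 ≤ q := by
        have : D ≤ 2 * q := by omega
        have : (D : ℝ) ≤ 2 * q := by exact_mod_cast this
        linarith
      calc (D : ℝ) ^ (1 - η) / 2 ≤ (D : ℝ) ^ (1 - η) / (2 : ℝ) ^ (1 - η) := by
            apply div_le_div_of_nonneg_left (by positivity) (by positivity)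
            calc (2 : ℝ) ^ (1 - η) ≤ (2 : ℝ) ^ (1 : ℝ) :=
                  Real.rpow_le_rpow_of_exponent_le (by norm_num) (by linarith)
              _ = 2 := Real.rpow_one 2
        _ = ((D : ℝ) / 2) ^ (1 - η) := (Real.div_rpow hD0.le (by norm_num) _).symm
        _ ≤ (q : ℝ) ^ (1 - η) := Real.rpow_le_rpow (by positivity) h4 (by linarith)
    have h3 : (PP.card : ℝ) * ((D : ℝ) ^ (1 - η) / 2) ≤ I.card := by
      rw [h1, ← nsmul_eq_mul, ← sum_const]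
      exact sum_le_sum h2
    refine le_trans ?_ h3
    have h4 : Real.exp ((2 - 2 * η) * L) = (D : ℝ) ^ (1 - η) * (D : ℝ) ^ (1 - η) := by
      rw [← Real.rpow_add hD0, hpow]
      congr 1
      ring
    rw [h4, mul_div_assoc]
    gcongr
  have hIcard0 : (0 : ℝ) < I.card := lt_of_lt_of_le (by positivity) hIcard
  -- the scales
  have hP : ∀ z ∈ I, Real.exp (-(lam * L)) ≤ μ.real (Emp E (Sap z.1 z.2 (Y z.1))) := by
    intro z hz
    refine le_trans ?_ (hIA z hz).2.2.2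
    rw [show -(lam * L) = (-lam) * L by ring, ← hpow]
    have hz1 : (0 : ℝ) < z.1 := by exact_mod_cast (hIq z hz).1.pos
    apply Real.rpow_le_rpow_of_nonpos hz1 _ (by linarith)
    exact_mod_cast (hIq z hz).2.2.1
  have hk : ∀ z : ℕ × ℕ, ∃ k : ℕ, z ∈ I → (k < K₀ + 1 ∧ (k : ℝ) * η ≤ lam ∧
      Real.exp (-(((k : ℝ) + 1) * η * L)) ≤ μ.real (Emp E (Sap z.1 z.2 (Y z.1))) ∧
      μ.real (Emp E (Sap z.1 z.2 (Y z.1))) ≤ Real.exp (-((k : ℝ) * η * L))) := by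
    intro z
    by_cases hz : z ∈ I
    · obtain ⟨k, hk⟩ := scale L η (μ.real (Emp E (Sap z.1 z.2 (Y z.1)))) lam hLpos hη
        (real_le_one _) (hP z hz)
      rw [← hK₀] at hk
      exact ⟨k, fun _ => hk⟩
    · exact ⟨0, fun h => absurd h hz⟩
  choose kk hkk using hk
  have hK1 : (0 : ℝ) < (K₀ : ℝ) + 1 := by positivity
  obtain ⟨k, hk1, hk2⟩ := exists_le_card_fiber_of_nsmul_le_card_of_maps_to
    (s := I) (t := range (K₀ + 1)) (f := kk) (b := (I.card : ℝ) / (K₀ + 1))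
    (fun z hz => mem_range.2 (hkk z hz).1) ⟨0, mem_range.2 (Nat.succ_pos _)⟩ (by
      rw [card_range, nsmul_eq_mul]
      push_cast
      rw [mul_div_cancel₀ _ hK1.ne'])
  obtain ⟨J, hJ⟩ : ∃ J, J = I.filter (fun z => kk z = k) := ⟨_, rfl⟩
  rw [← hJ] at hk2
  have hJI : ∀ z ∈ J, z ∈ I ∧ kk z = k := fun z hz => by rwa [hJ, mem_filter] at hz
  have hJc0 : (0 : ℝ) < J.card := lt_of_lt_of_le (by positivity) hk2
  have hJne : J.Nonempty := by
    rw [← card_pos]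
    exact_mod_cast hJc0
  have hkη : (k : ℝ) * η ≤ lam := by
    obtain ⟨z, hz⟩ := hJne
    have := (hkk z (hJI z hz).1).2.1
    rwa [(hJI z hz).2] at this
  obtain ⟨p₀, hp₀⟩ : ∃ p₀, p₀ = Real.exp (-(((k : ℝ) + 1) * η * L)) := ⟨_, rfl⟩
  obtain ⟨p₁, hp₁⟩ : ∃ p₁, p₁ = Real.exp (-((k : ℝ) * η * L)) := ⟨_, rfl⟩
  have hp₀pos : 0 < p₀ := by rw [hp₀]; exact Real.exp_pos _
  have hp01 : p₁ = p₀ * Real.exp (η * L) := by
    rw [hp₀, hp₁, ← Real.exp_add]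
    congr 1
    ring
  -- intersections
  obtain ⟨y, hy⟩ : ∃ y : ℕ, y = ⌊(D : ℝ) ^ (η / 2)⌋₊ := ⟨_, rfl⟩
  have hy1 : (y : ℝ) ≤ (D : ℝ) ^ (η / 2) := by rw [hy]; exact Nat.floor_le (by positivity)
  have hYy : ∀ z ∈ J, Y z.1 ≤ y := by
    intro z hz
    obtain ⟨h3, h4, h5, h6⟩ := hIq z (hJI z hz).1
    rw [hy]
    apply Nat.le_floor
    have h7 := (hq₀ z.1 h6).2
    have h8 : (z.1 : ℝ) ^ (η / 2) ≤ (D : ℝ) ^ (η / 2) :=
      Real.rpow_le_rpow (Nat.cast_nonneg _) (by exact_mod_cast h5) (by positivity)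
    linarith
  have hyD : 2 * y < D := by
    have : (2 * y : ℝ) < D := by linarith
    exact_mod_cast this
  have hint : ∀ z ∈ J, ∀ w ∈ J, z ≠ w →
      (Sap z.1 z.2 (Y z.1) ∩ Sap w.1 w.2 (Y w.1)).card ≤ 1 := by
    intro z hz w hw hzw
    obtain ⟨h3, h4, h5, h6⟩ := hIq z (hJI z hz).1
    obtain ⟨h3', h4', h5', h6'⟩ := hIq w (hJI w hw).1
    by_cases hq : z.1 = w.1
    · have h7 : z.2 ≠ w.2 := fun h => hzw (Prod.ext hq h)
      have h8 := (hIA z (hJI z hz).1).2.1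
      have h9 := (hIA w (hJI w hw).1).2.1
      rw [← hq] at h9
      have h10 : Disjoint (Sap z.1 z.2 (Y z.1)) (Sap w.1 w.2 (Y w.1)) := by
        rw [← hq]
        exact Sap_disj h8 h9 h7
      rw [Finset.disjoint_iff_inter_eq_empty.1 h10, card_empty]
      omega
    · apply Sap_inter h3 h3' hq
      have := hYy z hz
      omega
  have hX := count_inter J Y D y (fun z hz => (hIq z (hJI z hz).1).2.2.1) hYy
  have hX' : (((J ×ˢ J).filter (fun z => z.1 ≠ z.2 ∧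
      ¬ Disjoint (Sap z.1.1 z.1.2 (Y z.1.1)) (Sap z.2.1 z.2.2 (Y z.2.1)))).card : ℝ) ≤
      J.card * (((D : ℝ) + 1) * (((y : ℝ) + 1) * ((y : ℝ) + 1))) := by exact_mod_cast hX
  have key := thin_count hm hE J (fun z => Sap z.1 z.2 (Y z.1)) (by
      intro z hz m hmm
      obtain ⟨i, hi, rfl⟩ := mem_Sap.1 hmm
      exact (hIA z (hJI z hz).1).2.2.1 i hi) hint _ _ (fun z hz w hw h3 h4 => by
      rw [mem_filter, mem_product]
      exact ⟨⟨hz, hw⟩, h3, h4⟩) hX' p₀ p₁ hp₀pos (by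
      intro z hz
      have h3 := hkk z (hJI z hz).1
      rw [(hJI z hz).2] at h3
      rw [hp₀, hp₁]
      exact ⟨h3.2.2.1, h3.2.2.2⟩) hJne (fun ω => (Cn E Y ω D).card) (by
      intro ω J' hJ' hemp
      apply card_le_card
      intro z hz
      obtain ⟨h6, h7, h8, h9⟩ := hIq z (hJI z (hJ' hz)).1
      have h10 := hIA z (hJI z (hJ' hz)).1
      rw [mem_Cn]
      exact ⟨h8, h6, h10.1, h10.2.1, fun i hi => hemp z hz _ (mem_Sap.2 ⟨i, hi, rfl⟩)⟩)
  -- the numbers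
  have hJlow : Real.exp ((2 - 2 * η) * L) / (2 * (K₀ + 1)) ≤ J.card := by
    refine le_trans ?_ hk2
    rw [← div_div]
    gcongr
  have hg2 : 128 * ((K₀ : ℝ) + 1) ≤ Real.exp (η * L) := by rw [← hpow]; exact g2
  have hN : 2 * Real.exp ((2 - lam - 4 * η) * L) ≤ J.card * p₀ := by
    have h3 : Real.exp (-((lam + η) * L)) ≤ p₀ := by
      rw [hp₀]
      apply Real.exp_le_exp.2
      nlinarith
    have h4 : Real.exp ((2 - 2 * η) * L) / (2 * (K₀ + 1)) * Real.exp (-((lam + η) * L)) ≤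
        J.card * p₀ := by gcongr
    refine le_trans ?_ h4
    rw [div_mul_eq_mul_div, le_div_iff₀ (by positivity), ← Real.exp_add]
    have h5 : (2 - 2 * η) * L + -((lam + η) * L) = (2 - lam - 4 * η) * L + η * L := by ring
    rw [h5, Real.exp_add]
    have h6 : 0 < Real.exp ((2 - lam - 4 * η) * L) := Real.exp_pos _
    nlinarith
  have hN0 : 0 < (J.card : ℝ) * p₀ := by positivity
  have hηL : 0 < η * L := by positivity
  have t1 : 4 / ((J.card : ℝ) * p₀) ≤ Real.exp (-(η * L)) / 2 := by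
    rw [div_le_div_iff₀ hN0 (by norm_num)]
    have h3 : Real.exp (-(η * L)) * (2 * Real.exp ((2 - lam - 4 * η) * L)) ≤
        Real.exp (-(η * L)) * (J.card * p₀) := by gcongr
    refine le_trans ?_ h3
    have h4 : Real.exp (-(η * L)) * (2 * Real.exp ((2 - lam - 4 * η) * L)) =
        2 * Real.exp ((2 - lam - 5 * η) * L) := by
      rw [mul_left_comm, ← Real.exp_add]
      congr 2
      ring
    rw [h4]
    have h5 : Real.exp (η * L) ≤ Real.exp ((2 - lam - 5 * η) * L) := by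
      apply Real.exp_le_exp.2
      nlinarith
    have h6 : (0 : ℝ) ≤ K₀ := Nat.cast_nonneg _
    linarith
  have t2 : 4 * (J.card * (((D : ℝ) + 1) * (((y : ℝ) + 1) * ((y : ℝ) + 1)))) * p₁ ^ 2 /
      (J.card * p₀) ^ 2 ≤ Real.exp (-(η * L)) / 2 := by
    have hy2 : (y : ℝ) + 1 ≤ 2 * Real.exp (η / 2 * L) := by
      rw [← hpow]
      have : (1 : ℝ) ≤ (D : ℝ) ^ (η / 2) := Real.one_le_rpow hD1 (by positivity)
      linarith
    have hDe : (D : ℝ) + 1 ≤ 2 * Real.exp L := by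
      rw [hL, Real.exp_log hD0]
      linarith
    have h3 : 4 * (J.card * (((D : ℝ) + 1) * (((y : ℝ) + 1) * ((y : ℝ) + 1)))) * p₁ ^ 2 /
        (J.card * p₀) ^ 2 = 4 * (((D : ℝ) + 1) * (((y : ℝ) + 1) * ((y : ℝ) + 1))) *
          (Real.exp (η * L)) ^ 2 / J.card := by
      rw [hp01]
      field_simp
    rw [h3, div_le_div_iff₀ hJc0 (by norm_num)]
    have h4 : 4 * (((D : ℝ) + 1) * (((y : ℝ) + 1) * ((y : ℝ) + 1))) * (Real.exp (η * L)) ^ 2 ≤
        4 * ((2 * Real.exp L) * ((2 * Real.exp (η / 2 * L)) * (2 * Real.exp (η / 2 * L)))) *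
          (Real.exp (η * L)) ^ 2 := by gcongr
    have h5 : 4 * ((2 * Real.exp L) * ((2 * Real.exp (η / 2 * L)) * (2 * Real.exp (η / 2 * L)))) *
          (Real.exp (η * L)) ^ 2 = 32 * Real.exp ((1 + 3 * η) * L) := by
      rw [sq]
      have : Real.exp ((1 + 3 * η) * L) = Real.exp L * (Real.exp (η / 2 * L) * Real.exp (η / 2 * L)) *
          (Real.exp (η * L) * Real.exp (η * L)) := by
        rw [← Real.exp_add, ← Real.exp_add, ← Real.exp_add, ← Real.exp_add]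
        congr 1
        ring
      rw [this]
      ring
    have h6 : Real.exp (-(η * L)) * (Real.exp ((2 - 2 * η) * L) / (2 * (K₀ + 1))) ≤
        Real.exp (-(η * L)) * J.card := by gcongr
    have h7 : 32 * Real.exp ((1 + 3 * η) * L) * 2 ≤
        Real.exp (-(η * L)) * (Real.exp ((2 - 2 * η) * L) / (2 * (K₀ + 1))) := by
      rw [← mul_div_assoc, le_div_iff₀ (by positivity), ← Real.exp_add]
      have h8 : -(η * L) + (2 - 2 * η) * L = (1 + 3 * η) * L + (1 - 6 * η) * L := by ring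
      rw [h8, Real.exp_add]
      have h9 : Real.exp (η * L) ≤ Real.exp ((1 - 6 * η) * L) := by
        apply Real.exp_le_exp.2
        nlinarith
      have h10 : 0 < Real.exp ((1 + 3 * η) * L) := Real.exp_pos _
      have h11 : 128 * ((K₀ : ℝ) + 1) ≤ Real.exp ((1 - 6 * η) * L) := hg2.trans h9
      nlinarith
    nlinarith
  have hfin : μ.real {ω | ((Cn E Y ω D).card : ℝ) ≤ (D : ℝ) ^ (2 - lam - 6 * η)} ≤
      μ.real {ω | ((Cn E Y ω D).card : ℝ) ≤ (J.card * p₀) / 2} := by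
    apply measureReal_mono _ (measure_ne_top _ _)
    intro ω hω
    simp only [Set.mem_ofPred_eq] at hω ⊢
    refine hω.trans ?_
    rw [hpow]
    have h5 : Real.exp ((2 - lam - 6 * η) * L) ≤ Real.exp ((2 - lam - 4 * η) * L) := by
      apply Real.exp_le_exp.2
      nlinarith
    linarith
  have h9 : (D : ℝ) ^ (-η) = Real.exp (-(η * L)) := by
    rw [hpow]
    congr 1
    ring
  rw [h9]
  calc _ ≤ _ := hfin
    _ ≤ _ := key
    _ ≤ Real.exp (-(η * L)) / 2 + Real.exp (-(η * L)) / 2 := add_le_add t1 t2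
    _ = Real.exp (-(η * L)) := by ring

/-- almost surely there are many empty progressions -/
theorem low_pairs {E : ℕ → Set Ω} (hm : ∀ n, MeasurableSet (E n)) (hE : iIndepSet E μ) (Y : ℕ → ℕ)
    (lam η : ℝ) (hlam : 0 ≤ lam) (hη : 0 < η) (hη1 : η ≤ 1 / 20) (h2 : lam + 7 * η ≤ 2)
    (hY : ∀ ε : ℝ, 0 < ε → ∀ᶠ q : ℕ in atTop, (Y q : ℝ) + 1 ≤ (q : ℝ) ^ ε)
    (h : ∀ᶠ q : ℕ in atTop, q.Prime → ∃ A : Finset ℕ, (∀ a ∈ A, 1 ≤ a ∧ a < q ∧
      (∀ i ≤ Y q, μ.real (E (a + q * i)) ≤ 1 / 2) ∧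
        (q : ℝ) ^ (-lam) ≤ μ.real (Emp E (Sap q a (Y q)))) ∧ (q : ℝ) ^ (1 - η) ≤ A.card) :
    ∀ᵐ ω ∂μ, ∀ᶠ D : ℕ in atTop, (D : ℝ) ^ (2 - lam - 7 * η) ≤ (Cn E Y ω D).card := by
  classical
  obtain ⟨D₀, hD₀⟩ := eventually_atTop.1 (perD hm hE Y lam η hlam hη hη1 (by linarith) hY h)
  obtain ⟨bad, hbad⟩ : ∃ bad : ℕ → Set Ω, bad = fun j => if D₀ ≤ 2 ^ j then
    {ω | ((Cn E Y ω (2 ^ j)).card : ℝ) ≤ ((2 ^ j : ℕ) : ℝ) ^ (2 - lam - 6 * η)} else ∅ := ⟨_, rfl⟩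
  have hb : ∀ j, μ.real (bad j) ≤ ((2 : ℝ) ^ (-η)) ^ j := by
    intro j
    rw [hbad]
    simp only
    split_ifs with hj
    · refine (hD₀ _ hj).trans (le_of_eq ?_)
      push_cast
      rw [← Real.rpow_natCast, ← Real.rpow_natCast, ← Real.rpow_mul (by norm_num),
        ← Real.rpow_mul (by norm_num), mul_comm]
    · rw [measureReal_empty]
      positivity
  have hr : (2 : ℝ) ^ (-η) < 1 := Real.rpow_lt_one_of_one_lt_of_neg (by norm_num) (by linarith)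
  have hsum : Summable (fun j : ℕ => ((2 : ℝ) ^ (-η)) ^ j) :=
    summable_geometric_of_lt_one (by positivity) hr
  have htot : ∑' j, μ (bad j) ≠ ⊤ := by
    have h5 : ∀ n, μ (bad n) ≤ ENNReal.ofReal (((2 : ℝ) ^ (-η)) ^ n) := by
      intro n
      rw [← ENNReal.ofReal_toReal (measure_ne_top μ (bad n))]
      exact ENNReal.ofReal_le_ofReal (hb n)
    exact ne_top_of_le_ne_top hsum.tsum_ofReal_ne_top (ENNReal.tsum_le_tsum h5)
  filter_upwards [ae_eventually_notMem htot] with ω hω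
  have hlog : Tendsto (fun D : ℕ => Nat.log 2 D) atTop atTop := by
    apply tendsto_atTop_atTop.2
    intro b
    refine ⟨2 ^ b, fun a ha => ?_⟩
    calc b = Nat.log 2 (2 ^ b) := (Nat.log_pow (by norm_num) b).symm
      _ ≤ Nat.log 2 a := Nat.log_mono_right ha
  have E1 : ∀ᶠ j : ℕ in atTop, 4 ≤ (((2 ^ j : ℕ) : ℝ)) ^ η := by
    have : Tendsto (fun j : ℕ => 2 ^ j) atTop atTop := tendsto_pow_atTop_atTop_of_one_lt (by norm_num)
    exact (((tendsto_rpow_atTop hη).comp tendsto_natCast_atTop_atTop).comp this).eventually_ge_atTop _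
  have E2 : ∀ᶠ j : ℕ in atTop, D₀ ≤ 2 ^ j :=
    (tendsto_pow_atTop_atTop_of_one_lt (by norm_num : (1 : ℕ) < 2)).eventually_ge_atTop _
  filter_upwards [hlog.eventually hω, hlog.eventually E1, hlog.eventually E2, eventually_ge_atTop 1]
    with D g1 g2 g3 g4
  obtain ⟨j, hj⟩ : ∃ j, j = Nat.log 2 D := ⟨_, rfl⟩
  rw [← hj] at g1 g2 g3
  rw [hbad] at g1
  simp only [if_pos g3, Set.mem_ofPred_eq, not_le] at g1
  obtain ⟨M, hM⟩ : ∃ M : ℕ, M = 2 ^ j := ⟨_, rfl⟩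
  rw [← hM] at g1 g2
  have h3 : M ≤ D := by rw [hM, hj]; exact Nat.pow_log_le_self 2 (by omega)
  have h4 : D ≤ 2 * M := by
    have := (Nat.lt_pow_succ_log_self (b := 2) (by norm_num) D).le
    rw [hM, hj]
    rw [pow_succ] at this
    omega
  have hM0 : (0 : ℝ) < M := by
    rw [hM]
    positivity
  have h5 : (D : ℝ) ≤ 2 * M := by exact_mod_cast h4
  have h6 : ((Cn E Y ω M).card : ℝ) ≤ (Cn E Y ω D).card := by
    exact_mod_cast card_le_card (Cn_mono E Y ω h3)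
  refine le_trans ?_ (g1.le.trans h6)
  calc (D : ℝ) ^ (2 - lam - 7 * η) ≤ (2 * M : ℝ) ^ (2 - lam - 7 * η) :=
        Real.rpow_le_rpow (Nat.cast_nonneg _) h5 (by linarith)
    _ = (2 : ℝ) ^ (2 - lam - 7 * η) * (M : ℝ) ^ (2 - lam - 7 * η) :=
        Real.mul_rpow (by norm_num) hM0.le
    _ ≤ 4 * (M : ℝ) ^ (2 - lam - 7 * η) := by
        gcongr
        calc (2 : ℝ) ^ (2 - lam - 7 * η) ≤ (2 : ℝ) ^ (2 : ℝ) :=
              Real.rpow_le_rpow_of_exponent_le (by norm_num) (by linarith)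
          _ = 4 := by norm_num
    _ ≤ (M : ℝ) ^ η * (M : ℝ) ^ (2 - lam - 7 * η) := by gcongr
    _ = (M : ℝ) ^ (2 - lam - 6 * η) := by
        rw [← Real.rpow_add hM0]
        congr 1
        ring

end Pool.Agent.U839.Wg
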