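import Mathlib
import Pool.Agent.U839.Wg.Low
import Pool.Agent.U839.Thin.Fin

set_option autoImplicit false

/-! # One empty progression for every modulus; upper bounds -/

open MeasureTheory ProbabilityTheory Filter Finset Topology

namespace Pool.Agent.U839.Wg

open Pool.Agent.U839.Thin (tlog ae_complete compl_indep)

variable {Ω : Type*} [MeasurableSpace Ω] {μ : Measure Ω} [IsProbabilityMeasure μ]

theorem low_all {E : ℕ → Set Ω} (hm : ∀ n, MeasurableSet (E n)) (hE : iIndepSet E μ) (Y : ℕ → ℕ)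
    (lam η : ℝ) (hη : 0 < η) (hl : lam + 2 * η ≤ 1)
    (h : ∀ᶠ q : ℕ in atTop, q.Prime → ∃ A : Finset ℕ, (∀ a ∈ A, 1 ≤ a ∧ a < q ∧
        (q : ℝ) ^ (-lam) ≤ μ.real (Emp E (Sap q a (Y q)))) ∧ (q : ℝ) ^ (1 - η) ≤ A.card) :
    ∀ᵐ ω ∂μ, ∀ᶠ q : ℕ in atTop, q.Prime → ∃ a, 1 ≤ a ∧ a < q ∧ ∀ i ≤ Y q, ω ∉ E (a + q * i) := by
  classical
  have key := ae_complete (μ := μ) (fun p => (hm p).compl) (compl_indep hE) η hη
    (fun q a T => q.Prime → (1 ≤ a ∧ a < q ∧ T = Sap q a (Y q))) ?_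
  · filter_upwards [key] with ω hω
    filter_upwards [hω] with q hq hqp
    obtain ⟨a, T, g1, g2⟩ := hq
    obtain ⟨h1, h2, h3⟩ := g1 hqp
    refine ⟨a, h1, h2, fun i hi => ?_⟩
    have := g2 (a + q * i) (by rw [h3]; exact mem_Sap.2 ⟨i, hi, rfl⟩)
    exact this
  · filter_upwards [h, eventually_ge_atTop 1] with q g1 g2
    have hq1 : (1 : ℝ) ≤ q := by exact_mod_cast g2
    have hq0 : (0 : ℝ) < q := by linarith
    by_cases hq : q.Prime
    · obtain ⟨A, hA1, hA2⟩ := g1 hq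
      refine ⟨A, fun a => Sap q a (Y q), ?_, ?_, ?_⟩
      · intro i hi j hj hij
        exact Sap_disj (hA1 i hi).2.1 (hA1 j hj).2.1 hij
      · intro i hi _
        exact ⟨(hA1 i hi).1, (hA1 i hi).2.1, rfl⟩
      · have h1 : ∀ a ∈ A, (q : ℝ) ^ (-lam) ≤ ∏ p ∈ Sap q a (Y q), μ.real (E p)ᶜ := by
          intro a ha
          refine (hA1 a ha).2.2.trans (le_of_eq ?_)
          rw [Emp_prob hm hE]
          apply prod_congr rfl
          intro m _
          rw [probReal_compl_eq_one_sub (hm m)]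
        calc (q : ℝ) ^ η ≤ (q : ℝ) ^ (1 - η - lam) :=
              Real.rpow_le_rpow_of_exponent_le hq1 (by linarith)
          _ = (q : ℝ) ^ (1 - η) * (q : ℝ) ^ (-lam) := by
              rw [← Real.rpow_add hq0]
              congr 1
          _ ≤ A.card * (q : ℝ) ^ (-lam) := by gcongr
          _ = ∑ a ∈ A, (q : ℝ) ^ (-lam) := by rw [Finset.sum_const, nsmul_eq_mul]
          _ ≤ _ := Finset.sum_le_sum h1
    · refine ⟨Finset.range ⌈(q : ℝ) ^ η⌉₊, fun _ => ∅, fun _ _ _ _ _ => disjoint_empty_left _,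
        fun i _ h => absurd h hq, ?_⟩
      simp only [Finset.prod_empty, Finset.sum_const, Finset.card_range, nsmul_eq_mul, mul_one]
      exact Nat.le_ceil _

/-- if all progressions are unlikely to be empty, none is empty for large moduli -/
theorem up_all {E : ℕ → Set Ω} (Y : ℕ → ℕ) (lam : ℝ) (hl : 2 < lam)
    (h : ∀ᶠ q : ℕ in atTop, q.Prime → ∀ a, 1 ≤ a → a < q →
        μ.real (Emp E (Sap q a (Y q))) ≤ (q : ℝ) ^ (-lam)) :
    ∀ᵐ ω ∂μ, ∀ᶠ q : ℕ in atTop, q.Prime → ∀ a, 1 ≤ a → a < q → ∃ i ≤ Y q, ω ∈ E (a + q * i) := by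
  classical
  obtain ⟨q₀, hq₀⟩ := eventually_atTop.1 h
  obtain ⟨bad, hbad⟩ : ∃ bad : ℕ → Set Ω, bad = fun q => if max q₀ 1 ≤ q ∧ q.Prime then
    ⋃ a ∈ Ico 1 q, Emp E (Sap q a (Y q)) else ∅ := ⟨_, rfl⟩
  have hb : ∀ q, μ.real (bad q) ≤ 1 / (q : ℝ) ^ (lam - 1) := by
    intro q
    rw [hbad]
    simp only
    split_ifs with hq
    · have hq0 : (0 : ℝ) < q := by exact_mod_cast (le_max_right q₀ 1).trans hq.1
      refine (measureReal_biUnion_finset_le _ _).trans ?_
      have h1 : ∀ a ∈ Ico 1 q, μ.real (Emp E (Sap q a (Y q))) ≤ (q : ℝ) ^ (-lam) := by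
        intro a ha
        rw [mem_Ico] at ha
        exact hq₀ q ((le_max_left _ _).trans hq.1) hq.2 a ha.1 ha.2
      refine (sum_le_sum h1).trans ?_
      rw [sum_const, Nat.card_Ico, nsmul_eq_mul]
      have h2 : ((q - 1 : ℕ) : ℝ) ≤ q := by exact_mod_cast Nat.sub_le q 1
      calc ((q - 1 : ℕ) : ℝ) * (q : ℝ) ^ (-lam) ≤ q * (q : ℝ) ^ (-lam) := by gcongr
        _ = (q : ℝ) ^ (1 : ℝ) * (q : ℝ) ^ (-lam) := by rw [Real.rpow_one]
        _ = (q : ℝ) ^ (-(lam - 1)) := by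
            rw [← Real.rpow_add hq0]
            congr 1
            ring
        _ = 1 / (q : ℝ) ^ (lam - 1) := by rw [Real.rpow_neg hq0.le, one_div]
    · rw [measureReal_empty]
      positivity
  have hsum : Summable (fun q : ℕ => 1 / (q : ℝ) ^ (lam - 1)) :=
    Real.summable_one_div_nat_rpow.2 (by linarith)
  have htot : ∑' j, μ (bad j) ≠ ⊤ := by
    have h5 : ∀ n, μ (bad n) ≤ ENNReal.ofReal (1 / (n : ℝ) ^ (lam - 1)) := by
      intro n
      rw [← ENNReal.ofReal_toReal (measure_ne_top μ (bad n))]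
      exact ENNReal.ofReal_le_ofReal (hb n)
    exact ne_top_of_le_ne_top hsum.tsum_ofReal_ne_top (ENNReal.tsum_le_tsum h5)
  filter_upwards [ae_eventually_notMem htot] with ω hω
  filter_upwards [hω, eventually_ge_atTop (max q₀ 1)] with q g1 g2 hq a ha1 ha2
  rw [hbad] at g1
  simp only [if_pos (⟨g2, hq⟩ : max q₀ 1 ≤ q ∧ q.Prime), Set.mem_iUnion, not_exists] at g1
  have g3 := g1 a (mem_Ico.2 ⟨ha1, ha2⟩)
  rw [mem_Emp] at g3
  push Not at g3
  obtain ⟨m, hm1, hm2⟩ := g3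
  obtain ⟨i, hi, rfl⟩ := mem_Sap.1 hm1
  exact ⟨i, hi, hm2⟩

/-- the expected number of empty progressions -/
theorem up_pairs {E : ℕ → Set Ω} (hm : ∀ n, MeasurableSet (E n)) (Y : ℕ → ℕ) (lam η : ℝ)
    (hl : lam ≤ 2) (hη : 0 < η)
    (h : ∀ᶠ q : ℕ in atTop, q.Prime → ∀ a, 1 ≤ a → a < q →
        μ.real (Emp E (Sap q a (Y q))) ≤ (q : ℝ) ^ (-lam)) :
    ∀ᵐ ω ∂μ, ∀ᶠ D : ℕ in atTop, ((Cn E Y ω D).card : ℝ) ≤ (D : ℝ) ^ (2 - lam + 4 * η) := by
  classical
  obtain ⟨q₀, hq₀⟩ := eventually_atTop.1 h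
  obtain ⟨Q, hQ⟩ : ∃ Q, Q = max q₀ 1 := ⟨_, rfl⟩
  have hs : Summable (fun q : ℕ => 1 / (q : ℝ) ^ (1 + η)) :=
    Real.summable_one_div_nat_rpow.2 (by linarith)
  obtain ⟨C, hC⟩ : ∃ C : ℝ, C = ∑' q : ℕ, 1 / (q : ℝ) ^ (1 + η) := ⟨_, rfl⟩
  have hC0 : 0 ≤ C := by
    rw [hC]
    exact tsum_nonneg fun q => by positivity
  -- the expectation
  have hexp : ∀ D : ℕ, 1 ≤ D → ∑ z ∈ ((range (D + 1)) ×ˢ (range (D + 1))).filter
      (fun z => z.1.Prime ∧ 1 ≤ z.2 ∧ z.2 < z.1), μ.real (Emp E (Sap z.1 z.2 (Y z.1))) ≤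
      ((Q : ℝ) ^ 2 + C) * (D : ℝ) ^ (2 - lam + η) := by
    intro D hD
    have hD1 : (1 : ℝ) ≤ D := by exact_mod_cast hD
    have h1 : ∀ z ∈ ((range (D + 1)) ×ˢ (range (D + 1))).filter
        (fun z => z.1.Prime ∧ 1 ≤ z.2 ∧ z.2 < z.1), μ.real (Emp E (Sap z.1 z.2 (Y z.1))) ≤
        (if z.1 < Q ∧ z.2 < Q then 1 else 0) +
          (if z.2 < z.1 ∧ Q ≤ z.1 then (z.1 : ℝ) ^ (-lam) else 0) := by
      intro z hz
      rw [mem_filter, mem_product, mem_range, mem_range] at hz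
      obtain ⟨⟨h2, h3⟩, h4, h5, h6⟩ := hz
      by_cases h7 : Q ≤ z.1
      · rw [if_neg (by omega), if_pos ⟨h6, h7⟩, zero_add]
        exact hq₀ z.1 (by rw [hQ] at h7; exact (le_max_left _ _).trans h7) h4 z.2 h5 h6
      · rw [if_pos ⟨by omega, by omega⟩, if_neg (by omega), add_zero]
        exact real_le_one _
    refine (sum_le_sum h1).trans ?_
    rw [sum_add_distrib, add_mul]
    apply add_le_add
    · have h2 : ∑ z ∈ ((range (D + 1)) ×ˢ (range (D + 1))).filter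
          (fun z => z.1.Prime ∧ 1 ≤ z.2 ∧ z.2 < z.1), (if z.1 < Q ∧ z.2 < Q then (1 : ℝ) else 0) ≤
          (Q : ℝ) ^ 2 := by
        rw [sum_boole]
        have h3 : (((((range (D + 1)) ×ˢ (range (D + 1))).filter
          (fun z => z.1.Prime ∧ 1 ≤ z.2 ∧ z.2 < z.1)).filter (fun z => z.1 < Q ∧ z.2 < Q)).card) ≤
            (range Q ×ˢ range Q).card := by
          apply card_le_card
          intro z hz
          rw [mem_filter] at hz
          rw [mem_product, mem_range, mem_range]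
          exact hz.2
        rw [card_product, card_range] at h3
        rw [sq]
        exact_mod_cast h3
      have h3 : (1 : ℝ) ≤ (D : ℝ) ^ (2 - lam + η) := Real.one_le_rpow hD1 (by linarith)
      nlinarith [sq_nonneg (Q : ℝ)]
    · calc _ ≤ ∑ z ∈ (range (D + 1)) ×ˢ (range (D + 1)),
            (if z.2 < z.1 ∧ Q ≤ z.1 then (z.1 : ℝ) ^ (-lam) else 0) := by
            apply sum_le_sum_of_subset_of_nonneg (filter_subset _ _)
            intro z _ _
            split_ifs <;> positivity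
        _ = ∑ q ∈ range (D + 1), ∑ a ∈ range (D + 1),
            (if a < q ∧ Q ≤ q then (q : ℝ) ^ (-lam) else 0) := by rw [sum_product]
        _ ≤ ∑ q ∈ range (D + 1), (D : ℝ) ^ (2 - lam + η) * (1 / (q : ℝ) ^ (1 + η)) := by
            apply sum_le_sum
            intro q hq
            rw [mem_range] at hq
            by_cases h7 : Q ≤ q
            · have hq1 : 1 ≤ q := by rw [hQ] at h7; exact (le_max_right _ _).trans h7
              have hq0 : (0 : ℝ) < q := by exact_mod_cast hq1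
              have h8 : ∑ a ∈ range (D + 1), (if a < q ∧ Q ≤ q then (q : ℝ) ^ (-lam) else 0) =
                  q * (q : ℝ) ^ (-lam) := by
                rw [← sum_filter, sum_const, nsmul_eq_mul]
                congr 2
                have : (range (D + 1)).filter (fun a => a < q ∧ Q ≤ q) = range q := by
                  ext a
                  simp only [mem_filter, mem_range]
                  omega
                rw [this, card_range]
              rw [h8]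
              have h9 : (q : ℝ) * (q : ℝ) ^ (-lam) = (q : ℝ) ^ (2 - lam + η) * (1 / (q : ℝ) ^ (1 + η)) := by
                rw [one_div, ← Real.rpow_neg hq0.le, ← Real.rpow_add hq0]
                nth_rewrite 1 [← Real.rpow_one (q : ℝ)]
                rw [← Real.rpow_add hq0]
                congr 1
                ring
              rw [h9]
              apply mul_le_mul_of_nonneg_right _ (by positivity)
              apply Real.rpow_le_rpow hq0.le _ (by linarith)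
              exact_mod_cast (by omega : q ≤ D)
            · have h8 : ∑ a ∈ range (D + 1), (if a < q ∧ Q ≤ q then (q : ℝ) ^ (-lam) else 0) = 0 := by
                apply sum_eq_zero
                intro a _
                rw [if_neg (by omega)]
              rw [h8]
              positivity
        _ = (D : ℝ) ^ (2 - lam + η) * ∑ q ∈ range (D + 1), (1 / (q : ℝ) ^ (1 + η)) := by
            rw [mul_sum]
        _ ≤ (D : ℝ) ^ (2 - lam + η) * C := by
            apply mul_le_mul_of_nonneg_left _ (by positivity)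
            rw [hC]
            exact hs.sum_le_tsum _ (fun q _ => by positivity)
        _ = C * (D : ℝ) ^ (2 - lam + η) := mul_comm _ _
  -- Markov
  have hmar : ∀ D : ℕ, 1 ≤ D → μ.real {ω | (D : ℝ) ^ (2 - lam + 3 * η) < (Cn E Y ω D).card} ≤
      ((Q : ℝ) ^ 2 + C) * (D : ℝ) ^ (-(2 * η)) := by
    intro D hD
    have hD0 : (0 : ℝ) < D := by exact_mod_cast hD
    obtain ⟨Z, hZ⟩ : ∃ Z, Z = ((range (D + 1)) ×ˢ (range (D + 1))).filter
      (fun z : ℕ × ℕ => z.1.Prime ∧ 1 ≤ z.2 ∧ z.2 < z.1) := ⟨_, rfl⟩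
    have hexpD := hexp D hD
    rw [← hZ] at hexpD
    obtain ⟨f, hf⟩ : ∃ f : ℕ × ℕ → Ω → ℝ,
      f = fun z => (Emp E (Sap z.1 z.2 (Y z.1))).indicator (fun _ => (1 : ℝ)) := ⟨_, rfl⟩
    have hcard : ∀ ω, ((Cn E Y ω D).card : ℝ) ≤ ∑ z ∈ Z, f z ω := by
      intro ω
      rw [hf]
      simp only [Set.indicator_apply]
      rw [sum_boole]
      have : (Cn E Y ω D).card ≤ (Z.filter (fun z => ω ∈ Emp E (Sap z.1 z.2 (Y z.1)))).card := by
        apply card_le_card
        intro z hz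
        rw [mem_Cn] at hz
        obtain ⟨h1, h2, h3, h4, h5⟩ := hz
        rw [mem_filter, hZ, mem_filter, mem_product, mem_range, mem_range]
        refine ⟨⟨⟨by omega, by omega⟩, h2, h3, h4⟩, ?_⟩
        rw [mem_Emp]
        intro m hmm
        obtain ⟨i, hi, rfl⟩ := mem_Sap.1 hmm
        exact h5 i hi
      exact_mod_cast this
    have hfi : ∀ z ∈ Z, Integrable (f z) μ := fun z _ => by
      rw [hf]
      exact (integrable_const (1 : ℝ)).indicator (Emp_meas hm _)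
    have hint : ∫ ω, ∑ z ∈ Z, f z ω ∂μ = ∑ z ∈ Z, μ.real (Emp E (Sap z.1 z.2 (Y z.1))) := by
      rw [integral_finsetSum Z hfi]
      apply sum_congr rfl
      intro z _
      rw [hf]
      simp only
      rw [integral_indicator_const _ (Emp_meas hm _)]
      simp
    have hmk := mul_meas_ge_le_integral_of_nonneg (μ := μ) (f := fun ω => ∑ z ∈ Z, f z ω)
      (Filter.Eventually.of_forall (fun ω => sum_nonneg fun z _ => by
        rw [hf]
        simp only [Set.indicator_apply]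
        split_ifs <;> norm_num)) (integrable_finsetSum Z hfi) ((D : ℝ) ^ (2 - lam + 3 * η))
    rw [hint] at hmk
    have hsub : {ω | (D : ℝ) ^ (2 - lam + 3 * η) < (Cn E Y ω D).card} ⊆
        {ω | (D : ℝ) ^ (2 - lam + 3 * η) ≤ ∑ z ∈ Z, f z ω} := by
      intro ω hω
      simp only [Set.mem_ofPred_eq] at hω ⊢
      exact hω.le.trans (hcard ω)
    have h5 := measureReal_mono (μ := μ) hsub (measure_ne_top _ _)
    have hpos : 0 < (D : ℝ) ^ (2 - lam + 3 * η) := Real.rpow_pos_of_pos hD0 _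
    have h6 : (D : ℝ) ^ (2 - lam + 3 * η) *
        μ.real {ω | (D : ℝ) ^ (2 - lam + 3 * η) < (Cn E Y ω D).card} ≤
        ((Q : ℝ) ^ 2 + C) * (D : ℝ) ^ (2 - lam + η) :=
      (mul_le_mul_of_nonneg_left h5 hpos.le).trans (hmk.trans hexpD)
    have h7 : ((Q : ℝ) ^ 2 + C) * (D : ℝ) ^ (2 - lam + η) =
        (D : ℝ) ^ (2 - lam + 3 * η) * (((Q : ℝ) ^ 2 + C) * (D : ℝ) ^ (-(2 * η))) := by
      rw [mul_left_comm, ← Real.rpow_add hD0]
      congr 2
      ring
    rw [h7] at h6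
    exact le_of_mul_le_mul_left h6 hpos
  -- Borel-Cantelli
  obtain ⟨bad, hbad⟩ : ∃ bad : ℕ → Set Ω, bad = fun j =>
    {ω | ((2 ^ j : ℕ) : ℝ) ^ (2 - lam + 3 * η) < (Cn E Y ω (2 ^ j)).card} := ⟨_, rfl⟩
  have hb : ∀ j, μ.real (bad j) ≤ ((Q : ℝ) ^ 2 + C) * ((2 : ℝ) ^ (-(2 * η))) ^ j := by
    intro j
    rw [hbad]
    refine (hmar (2 ^ j) Nat.one_le_two_pow).trans (le_of_eq ?_)
    have h9 : ((2 ^ j : ℕ) : ℝ) ^ (-(2 * η)) = ((2 : ℝ) ^ (-(2 * η))) ^ j := by
      push_cast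
      rw [← Real.rpow_natCast, ← Real.rpow_natCast, ← Real.rpow_mul (by norm_num),
        ← Real.rpow_mul (by norm_num), mul_comm (j : ℝ)]
    rw [h9]
  have hr : (2 : ℝ) ^ (-(2 * η)) < 1 := Real.rpow_lt_one_of_one_lt_of_neg (by norm_num) (by linarith)
  have hsum : Summable (fun j : ℕ => ((Q : ℝ) ^ 2 + C) * ((2 : ℝ) ^ (-(2 * η))) ^ j) :=
    (summable_geometric_of_lt_one (by positivity) hr).mul_left _
  have htot : ∑' j, μ (bad j) ≠ ⊤ := by
    have h5 : ∀ n, μ (bad n) ≤ ENNReal.ofReal (((Q : ℝ) ^ 2 + C) * ((2 : ℝ) ^ (-(2 * η))) ^ n) := by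
      intro n
      rw [← ENNReal.ofReal_toReal (measure_ne_top μ (bad n))]
      exact ENNReal.ofReal_le_ofReal (hb n)
    exact ne_top_of_le_ne_top hsum.tsum_ofReal_ne_top (ENNReal.tsum_le_tsum h5)
  filter_upwards [ae_eventually_notMem htot] with ω hω
  have hlog : Tendsto (fun D : ℕ => Nat.log 2 D + 1) atTop atTop := by
    apply tendsto_atTop_atTop.2
    intro b
    refine ⟨2 ^ b, fun a ha => ?_⟩
    have : b ≤ Nat.log 2 a := by
      calc b = Nat.log 2 (2 ^ b) := (Nat.log_pow (by norm_num) b).symm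
        _ ≤ Nat.log 2 a := Nat.log_mono_right ha
    omega
  have E1 : ∀ᶠ D : ℕ in atTop, (2 : ℝ) ^ (2 - lam + 3 * η) ≤ (D : ℝ) ^ η :=
    ((tendsto_rpow_atTop hη).comp tendsto_natCast_atTop_atTop).eventually_ge_atTop _
  filter_upwards [hlog.eventually hω, E1, eventually_ge_atTop 1] with D g1 g2 g4
  obtain ⟨j, hj⟩ : ∃ j, j = Nat.log 2 D := ⟨_, rfl⟩
  rw [← hj] at g1
  rw [hbad] at g1
  simp only [Set.mem_ofPred_eq, not_lt] at g1
  obtain ⟨M, hM⟩ : ∃ M : ℕ, M = 2 ^ (j + 1) := ⟨_, rfl⟩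
  rw [← hM] at g1
  have h3 : D ≤ M := by
    have := (Nat.lt_pow_succ_log_self (b := 2) (by norm_num) D).le
    rw [hM, hj]
    exact this
  have h4 : M ≤ 2 * D := by
    have := Nat.pow_log_le_self 2 (show D ≠ 0 by omega)
    rw [hM, hj, pow_succ]
    omega
  have hD0 : (0 : ℝ) < D := by exact_mod_cast g4
  have h5 : (M : ℝ) ≤ 2 * D := by exact_mod_cast h4
  have h6 : ((Cn E Y ω D).card : ℝ) ≤ (Cn E Y ω M).card := by
    exact_mod_cast card_le_card (Cn_mono E Y ω h3)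
  refine (h6.trans g1).trans ?_
  calc (M : ℝ) ^ (2 - lam + 3 * η) ≤ (2 * D : ℝ) ^ (2 - lam + 3 * η) :=
        Real.rpow_le_rpow (Nat.cast_nonneg _) h5 (by linarith)
    _ = (2 : ℝ) ^ (2 - lam + 3 * η) * (D : ℝ) ^ (2 - lam + 3 * η) :=
        Real.mul_rpow (by norm_num) hD0.le
    _ ≤ (D : ℝ) ^ η * (D : ℝ) ^ (2 - lam + 3 * η) := by gcongr
    _ = (D : ℝ) ^ (2 - lam + 4 * η) := by
        rw [← Real.rpow_add hD0]
        congr 1
        ring

end Pool.Agent.U839.Wg
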