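import Mathlib
import Pool.Agent.U839.Wg.Ar
import Pool.Agent.U839.Wg.Upp

set_option autoImplicit false

/-! # The least elements of the residue classes in sieved random models -/

open MeasureTheory ProbabilityTheory Filter Finset Topology

namespace Pool.Agent.U839.Wg

open Pool.Agent.U839.Sv
open Pool.Agent.U839.Thin (tlog one_sub_ge)

variable {Ω : Type*} [MeasurableSpace Ω] {μ : Measure Ω} [IsProbabilityMeasure μ]

/-- the class of `a` modulo `q` contains no element of `Q` up to `x` -/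
def Late (Q : Set ℕ) (q a : ℕ) (x : ℝ) : Prop := ∀ m ∈ Q, m ≡ a [MOD q] → x < m

/-- `c φ(q) (log q)²` -/
noncomputable def wag (c : ℝ) (q : ℕ) : ℝ := c * (q.totient : ℝ) * (Real.log q) ^ 2

/-- the number of pairs `(q, a)`, `q ≤ D` prime, `1 ≤ a < q`, with late classes -/
noncomputable def NN (Q : Set ℕ) (c : ℝ) (D : ℕ) : ℕ :=
  {z : ℕ × ℕ | z.1 ≤ D ∧ z.1.Prime ∧ 1 ≤ z.2 ∧ z.2 < z.1 ∧ Late Q z.1 z.2 (wag c z.1)}.ncard

theorem NN_fin (Q : Set ℕ) (c : ℝ) (D : ℕ) :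
    {z : ℕ × ℕ | z.1 ≤ D ∧ z.1.Prime ∧ 1 ≤ z.2 ∧ z.2 < z.1 ∧ Late Q z.1 z.2 (wag c z.1)}.Finite := by
  apply (((range (D + 1)) ×ˢ (range (D + 1))).finite_toSet).subset
  rintro z ⟨h1, h2, h3, h4, h5⟩
  rw [Finset.mem_coe, mem_product, mem_range, mem_range]
  omega

omit [MeasurableSpace Ω] in
theorem late_of_empty {E : ℕ → Set Ω} {ω : Ω} {q a : ℕ} {c : ℝ} (hq : q.Prime) (hc : 0 ≤ c)
    (ha : a < q) (h : ∀ i ≤ wn c q, ω ∉ E (a + q * i)) : Late {n | ω ∈ E n} q a (wag c q) := by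
  intro m hm hma
  by_contra hcon
  push Not at hcon
  have hq0 : (0 : ℝ) < q := by exact_mod_cast hq.pos
  have h1 : m % q = a := by
    have : m % q = a % q := hma
    rw [this, Nat.mod_eq_of_lt ha]
  have h2 : a + q * (m / q) = m := by
    have := Nat.mod_add_div m q
    rw [h1] at this
    exact this
  have h3 : m / q ≤ wn c q := by
    unfold wn
    apply Nat.le_floor
    have h4 : ((m / q : ℕ) : ℝ) ≤ (m : ℝ) / q := Nat.cast_div_le
    refine h4.trans ?_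
    rw [div_le_iff₀ hq0]
    refine hcon.trans ?_
    unfold wag
    have h5 : (q.totient : ℝ) ≤ q := by exact_mod_cast Nat.totient_le q
    have h6 : c * (q.totient : ℝ) ≤ c * q := mul_le_mul_of_nonneg_left h5 hc
    have h7 := mul_le_mul_of_nonneg_right h6 (sq_nonneg (Real.log q))
    linarith
  exact h _ h3 (by rw [h2]; exact hm)

omit [MeasurableSpace Ω] in
/-- the converse with a smaller constant -/
theorem empty_of_late (c c' : ℝ) (hc' : 0 ≤ c') (hcc : c' < c) : ∀ᶠ q : ℕ in atTop, q.Prime →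
    ∀ (E : ℕ → Set Ω) (ω : Ω) (a : ℕ), a < q → Late {n | ω ∈ E n} q a (wag c q) →
      ∀ i ≤ wn c' q, ω ∉ E (a + q * i) := by
  have h1 : ∀ᶠ q : ℕ in atTop, (2 + c) / (c - c') ≤ Real.log q := tlog.eventually_ge_atTop _
  have h2 : ∀ᶠ q : ℕ in atTop, (Real.log q) ^ 2 / q ≤ 1 := by
    filter_upwards [log_sq_small 1 1 one_pos one_pos, eventually_ge_atTop 1] with q hq hq1
    have hq0 : (0 : ℝ) < q := by exact_mod_cast hq1
    rw [one_mul, Real.rpow_one] at hq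
    rw [div_le_one hq0]
    linarith
  filter_upwards [h1, h2, tlog.eventually_ge_atTop 1] with q g1 g2 g3 hq E ω a ha hL i hi hmem
  have h3 := hL (a + q * i) hmem (by
    unfold Nat.ModEq
    rw [Nat.add_mul_mod_self_left])
  have hq0 : (0 : ℝ) < q := by exact_mod_cast hq.pos
  unfold wag at h3
  rw [Nat.totient_prime hq, Nat.cast_sub hq.one_lt.le, Nat.cast_one] at h3
  have h4 : (i : ℝ) ≤ c' * (Real.log q) ^ 2 := by
    have h5 : (i : ℝ) ≤ wn c' q := by exact_mod_cast hi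
    exact h5.trans (Nat.floor_le (by positivity))
  push_cast at h3
  have h5 : (a : ℝ) < q := by exact_mod_cast ha
  obtain ⟨L, hL⟩ : ∃ L, L = Real.log q := ⟨_, rfl⟩
  rw [← hL] at g1 g2 g3 h3 h4
  rw [div_le_iff₀ (by linarith)] at g1
  rw [div_le_one hq0] at g2
  -- c (q - 1) L² < q + q c' L²
  have h6 : c * ((q : ℝ) - 1) * L ^ 2 < q + q * (c' * L ^ 2) := by
    have : (q : ℝ) * i ≤ q * (c' * L ^ 2) := by gcongr
    linarith
  have hc : 0 < c := lt_of_le_of_lt hc' hcc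
  have h7 : c * L ^ 2 ≤ c * q := by gcongr
  have h8 : (c - c') * L ^ 2 * q < (1 + c) * q := by nlinarith
  have h9 : (c - c') * L ^ 2 < 1 + c := lt_of_mul_lt_mul_right h8 hq0.le
  nlinarith

theorem emp_low {T : ℕ → ℕ} {E : ℕ → Set Ω} (h : Sieved μ E T)
    (hTs : ∀ ε : ℝ, 0 < ε → ∀ᶠ n : ℕ in atTop, (T n : ℝ) ≤ (n : ℝ) ^ ε) (c κ η : ℝ) (hc : 0 < c)
    (hκ : 0 < κ) (hη : 0 < η) (hη1 : η ≤ 1) : ∀ᶠ q : ℕ in atTop, ∀ a : ℕ, 1 ≤ a → q ≤ 3 * a →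
      ∑ i ∈ range (wn c q + 1), fT T (a + q * i) ≤ κ * (c * (Real.log q) ^ 2) →
      (∀ i ≤ wn c q, μ.real (E (a + q * i)) ≤ 1 / 2) ∧
        (q : ℝ) ^ (-((1 + η) * (κ * c))) ≤ μ.real (Emp E (Sap q a (wn c q))) := by
  obtain ⟨n₁, hn₁⟩ := eventually_atTop.1 ((law' h hTs).and (rho_small T hTs (η / 4) (by positivity)))
  have E1 : ∀ᶠ q : ℕ in atTop, 2 * (4 + η) / η ≤ Real.log q := tlog.eventually_ge_atTop _
  filter_upwards [E1, eventually_ge_atTop (3 * n₁ + 6)] with q g1 g2 a ha1 hqa hsum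
  have hq0 : (0 : ℝ) < q := by exact_mod_cast (by omega : 0 < q)
  have hq0' : 0 < q := by omega
  obtain ⟨L, hL⟩ : ∃ L, L = Real.log q := ⟨_, rfl⟩
  rw [← hL] at g1 hsum
  have hL2 : 2 * (4 + η) ≤ L * η := by rwa [div_le_iff₀ hη] at g1
  have hLpos : 0 < L := by
    have : 0 < 2 * (4 + η) / η := by positivity
    linarith
  have han : n₁ ≤ a := by omega
  have hm : ∀ i, n₁ ≤ a + q * i := fun i => by omega
  have hlog : ∀ i, L / (1 + η / 4) ≤ Real.log ((a + q * i : ℕ) : ℝ) := by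
    intro i
    have h1 : (q : ℝ) / 3 ≤ ((a + q * i : ℕ) : ℝ) := by
      have : q ≤ 3 * (a + q * i) := by omega
      have : (q : ℝ) ≤ 3 * ((a + q * i : ℕ) : ℝ) := by exact_mod_cast this
      linarith
    refine le_trans ?_ (Real.log_le_log (by positivity) h1)
    rw [Real.log_div hq0.ne' (by norm_num), ← hL, div_le_iff₀ (by positivity)]
    have h3 : Real.log 3 ≤ 2 := by
      rw [Real.log_le_iff_le_exp (by norm_num)]
      have h8 : (2.7182818283 : ℝ) < Real.exp 1 := Real.exp_one_gt_d9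
      have h9 : Real.exp 2 = Real.exp 1 * Real.exp 1 := by rw [← Real.exp_add]; norm_num
      rw [h9]
      nlinarith
    nlinarith
  have hρ : ∀ i, μ.real (E (a + q * i)) = fT T (a + q * i) / Real.log ((a + q * i : ℕ) : ℝ) :=
    fun i => (hn₁ _ (hm i)).1
  have hρs : ∀ i, 0 ≤ μ.real (E (a + q * i)) ∧ 2 * μ.real (E (a + q * i)) ≤ η / 4 := by
    intro i
    rw [hρ i]
    exact (hn₁ _ (hm i)).2
  refine ⟨fun i _ => by linarith [(hρs i).2], ?_⟩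
  rw [Emp_prob h.meas h.indep, Sap_prod hq0']
  have h1 : ∀ i ∈ range (wn c q + 1), Real.exp (-((1 + η / 4) * ((1 + η / 4) / L * fT T (a + q * i)))) ≤
      1 - μ.real (E (a + q * i)) := by
    intro i _
    obtain ⟨h2, h3⟩ := hρs i
    refine le_trans ?_ (one_sub_ge _ h2 (by linarith))
    apply Real.exp_le_exp.2
    rw [neg_le_neg_iff]
    have h4 : μ.real (E (a + q * i)) ≤ (1 + η / 4) / L * fT T (a + q * i) := by
      rw [hρ i]
      have h5 : fT T (a + q * i) / Real.log ((a + q * i : ℕ) : ℝ) ≤ fT T (a + q * i) / (L / (1 + η / 4)) :=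
        div_le_div_of_nonneg_left (fT_nonneg T _) (by positivity) (hlog i)
      refine h5.trans (le_of_eq ?_)
      field_simp
    have h5 : μ.real (E (a + q * i)) + 2 * μ.real (E (a + q * i)) ^ 2 ≤
        (1 + η / 4) * μ.real (E (a + q * i)) := by nlinarith
    refine h5.trans ?_
    gcongr
  refine le_trans ?_ (prod_le_prod (fun i _ => (Real.exp_pos _).le) h1)
  rw [← Real.exp_sum, sum_neg_distrib, ← mul_sum, ← mul_sum, Real.rpow_def_of_pos hq0]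
  apply Real.exp_le_exp.2
  rw [← hL]
  have h2 : (1 + η / 4) * ((1 + η / 4) / L * ∑ i ∈ range (wn c q + 1), fT T (a + q * i)) ≤
      (1 + η / 4) * ((1 + η / 4) / L * (κ * (c * L ^ 2))) := by gcongr
  have h3 : (1 + η / 4) * ((1 + η / 4) / L * (κ * (c * L ^ 2))) = (1 + η / 4) ^ 2 * (κ * c * L) := by
    field_simp
  have h4 : (1 + η / 4) ^ 2 ≤ 1 + η := by nlinarith
  have h5 : 0 < κ * c * L := by positivity
  have h6 : (1 + η / 4) ^ 2 * (κ * c * L) ≤ (1 + η) * (κ * c * L) := by gcongr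
  nlinarith

theorem emp_up {T : ℕ → ℕ} {E : ℕ → Set Ω} (h : Sieved μ E T)
    (hTs : ∀ ε : ℝ, 0 < ε → ∀ᶠ n : ℕ in atTop, (T n : ℝ) ≤ (n : ℝ) ^ ε) (c κ η : ℝ) (hc : 0 < c)
    (hη : 0 < η) : ∀ᶠ q : ℕ in atTop, ∀ a : ℕ, 1 ≤ a → a < q →
      κ * (c * (Real.log q) ^ 2) ≤ ∑ i ∈ Ioc 0 (wn c q), fT T (a + q * i) →
        μ.real (Emp E (Sap q a (wn c q))) ≤ (q : ℝ) ^ (-(κ * c / (1 + η))) := by
  obtain ⟨n₁, hn₁⟩ := eventually_atTop.1 (law' h hTs)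
  have E2 := log_sq_small c η hc hη
  filter_upwards [E2, eventually_ge_atTop (max n₁ 2), tlog.eventually_ge_atTop 1] with
    q g1 g2 g3 a ha1 haq hsum
  have hq2 : 2 ≤ q := (le_max_right _ _).trans g2
  have hqn : n₁ ≤ q := (le_max_left _ _).trans g2
  have hq0 : (0 : ℝ) < q := by exact_mod_cast (by omega : 0 < q)
  have hq0' : 0 < q := by omega
  obtain ⟨L, hL⟩ : ∃ L, L = Real.log q := ⟨_, rfl⟩
  rw [← hL] at g1 g3 hsum
  have hLpos : 0 < L := by linarith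
  obtain ⟨Y, hY⟩ : ∃ Y, Y = wn c q := ⟨_, rfl⟩
  rw [← hY] at hsum ⊢
  have hYy : (Y : ℝ) + 1 ≤ (q : ℝ) ^ η := by
    have h1 : (Y : ℝ) ≤ c * L ^ 2 := by
      rw [hY, hL]
      exact Nat.floor_le (by positivity)
    linarith
  rw [Emp_prob h.meas h.indep, Sap_prod hq0']
  have hle1 : ∀ i, 0 ≤ 1 - μ.real (E (a + q * i)) ∧ 1 - μ.real (E (a + q * i)) ≤ 1 := by
    intro i
    have h1 := real_le_one (μ := μ) (E (a + q * i))
    have h2 : 0 ≤ μ.real (E (a + q * i)) := measureReal_nonneg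
    constructor <;> linarith
  have hsub : Ioc 0 Y ⊆ range (Y + 1) := by
    intro i hi
    rw [mem_Ioc] at hi
    rw [mem_range]
    omega
  have h1 : ∏ i ∈ range (Y + 1), (1 - μ.real (E (a + q * i))) ≤
      ∏ i ∈ Ioc 0 Y, (1 - μ.real (E (a + q * i))) := by
    rw [← prod_sdiff hsub]
    have h2 : ∏ i ∈ range (Y + 1) \ Ioc 0 Y, (1 - μ.real (E (a + q * i))) ≤ 1 :=
      prod_le_one (fun i _ => (hle1 i).1) (fun i _ => (hle1 i).2)
    have h3 : 0 ≤ ∏ i ∈ Ioc 0 Y, (1 - μ.real (E (a + q * i))) := prod_nonneg fun i _ => (hle1 i).1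
    nlinarith
  refine h1.trans ?_
  have h2 : ∀ i ∈ Ioc 0 Y, 1 - μ.real (E (a + q * i)) ≤
      Real.exp (-(1 / ((1 + η) * L) * fT T (a + q * i))) := by
    intro i hi
    rw [mem_Ioc] at hi
    have hqi : q ≤ q * i := Nat.le_mul_of_pos_right q hi.1
    have hmi : q ≤ a + q * i := by omega
    have hm0 : (1 : ℝ) < ((a + q * i : ℕ) : ℝ) := by exact_mod_cast (by omega : 1 < a + q * i)
    have hρ := hn₁ (a + q * i) (by omega)
    have hlog : Real.log ((a + q * i : ℕ) : ℝ) ≤ (1 + η) * L := by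
      have h4 : ((a + q * i : ℕ) : ℝ) ≤ q * (q : ℝ) ^ η := by
        have h5 : a + q * i ≤ q * (Y + 1) := by
          have : q * i ≤ q * Y := Nat.mul_le_mul_left q hi.2
          rw [Nat.mul_add, mul_one]
          omega
        have h6 : ((a + q * i : ℕ) : ℝ) ≤ q * ((Y : ℝ) + 1) := by exact_mod_cast h5
        refine h6.trans ?_
        gcongr
      refine (Real.log_le_log (by linarith) h4).trans (le_of_eq ?_)
      rw [Real.log_mul hq0.ne' (by positivity), Real.log_rpow hq0, ← hL]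
      ring
    have h4 := Real.add_one_le_exp (-μ.real (E (a + q * i)))
    refine le_trans (by linarith) (h4.trans ?_)
    apply Real.exp_le_exp.2
    rw [neg_le_neg_iff, hρ]
    have hlpos : 0 < Real.log ((a + q * i : ℕ) : ℝ) := Real.log_pos hm0
    calc 1 / ((1 + η) * L) * fT T (a + q * i) ≤
          1 / Real.log ((a + q * i : ℕ) : ℝ) * fT T (a + q * i) :=
          mul_le_mul_of_nonneg_right (one_div_le_one_div_of_le hlpos hlog) (fT_nonneg T _)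
      _ = fT T (a + q * i) / Real.log ((a + q * i : ℕ) : ℝ) := by ring
  refine (prod_le_prod (fun i _ => (hle1 i).1) h2).trans ?_
  rw [← Real.exp_sum, sum_neg_distrib, ← mul_sum, Real.rpow_def_of_pos hq0]
  apply Real.exp_le_exp.2
  rw [← hL]
  have h3 : 1 / ((1 + η) * L) * (κ * (c * L ^ 2)) ≤
      1 / ((1 + η) * L) * ∑ i ∈ Ioc 0 Y, fT T (a + q * i) := by gcongr
  have h4 : 1 / ((1 + η) * L) * (κ * (c * L ^ 2)) = κ * c / (1 + η) * L := by field_simp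
  rw [h4] at h3
  linarith

theorem wn_small (c : ℝ) (hc : 0 < c) : ∀ ε : ℝ, 0 < ε → ∀ᶠ q : ℕ in atTop,
    (wn c q : ℝ) + 1 ≤ (q : ℝ) ^ ε := by
  intro ε hε
  filter_upwards [log_sq_small c ε hc hε] with q hq
  have : (wn c q : ℝ) ≤ c * (Real.log q) ^ 2 := Nat.floor_le (by positivity)
  linarith

/-- all large primes -/
theorem all_low {T : ℕ → ℕ} {E : ℕ → Set Ω} (h : Sieved μ E T)
    (hTs : ∀ ε : ℝ, 0 < ε → ∀ᶠ n : ℕ in atTop, (T n : ℝ) ≤ (n : ℝ) ^ ε) (c κ : ℝ) (hc : 0 < c)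
    (hκ : 0 < κ) (hκc : κ * c < 1)
    (H : ∀ η : ℝ, 0 < η → η ≤ 1 / 2 → ∀ᶠ q : ℕ in atTop, q.Prime →
      ∃ A : Finset ℕ, (∀ a ∈ A, 1 ≤ a ∧ a < q ∧ q ≤ 3 * a ∧
        ∑ i ∈ range (wn c q + 1), fT T (a + q * i) ≤ κ * (c * (Real.log q) ^ 2)) ∧
        (q : ℝ) ^ (1 - η) ≤ A.card) :
    ∀ᵐ ω ∂μ, ∀ᶠ q : ℕ in atTop, q.Prime →
      ∃ a, 1 ≤ a ∧ a < q ∧ Late {n | ω ∈ E n} q a (wag c q) := by
  obtain ⟨η, hη, hη1, hη2⟩ : ∃ η : ℝ, 0 < η ∧ η ≤ 1 / 2 ∧ (1 + η) * (κ * c) + 2 * η ≤ 1 := by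
    refine ⟨min (1 / 2) ((1 - κ * c) / 3), lt_min (by norm_num) (by linarith), min_le_left _ _, ?_⟩
    have h1 := min_le_right (1 / 2 : ℝ) ((1 - κ * c) / 3)
    have h2 : 0 < min (1 / 2 : ℝ) ((1 - κ * c) / 3) := lt_min (by norm_num) (by linarith)
    have h3 : 0 < κ * c := by positivity
    nlinarith
  have key := low_all h.meas h.indep (wn c) ((1 + η) * (κ * c)) η hη hη2 (by
    filter_upwards [H η hη hη1, emp_low h hTs c κ η hc hκ hη (by linarith)] with q g1 g2 hq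
    obtain ⟨A, hA1, hA2⟩ := g1 hq
    exact ⟨A, fun a ha => ⟨(hA1 a ha).1, (hA1 a ha).2.1,
      (g2 a (hA1 a ha).1 (hA1 a ha).2.2.1 (hA1 a ha).2.2.2).2⟩, hA2⟩)
  filter_upwards [key] with ω hω
  filter_upwards [hω] with q hq hqp
  obtain ⟨a, h1, h2, h3⟩ := hq hqp
  exact ⟨a, h1, h2, late_of_empty hqp hc.le h2 h3⟩

/-- many pairs -/
theorem pairs_low {T : ℕ → ℕ} {E : ℕ → Set Ω} (h : Sieved μ E T)
    (hTs : ∀ ε : ℝ, 0 < ε → ∀ᶠ n : ℕ in atTop, (T n : ℝ) ≤ (n : ℝ) ^ ε) (c κ ε : ℝ) (hc : 0 < c)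
    (hκ : 0 < κ) (hκc : κ * c < 2) (hε : 0 < ε)
    (H : ∀ η : ℝ, 0 < η → η ≤ 1 / 2 → ∀ᶠ q : ℕ in atTop, q.Prime →
      ∃ A : Finset ℕ, (∀ a ∈ A, 1 ≤ a ∧ a < q ∧ q ≤ 3 * a ∧
        ∑ i ∈ range (wn c q + 1), fT T (a + q * i) ≤ κ * (c * (Real.log q) ^ 2)) ∧
        (q : ℝ) ^ (1 - η) ≤ A.card) :
    ∀ᵐ ω ∂μ, ∀ᶠ D : ℕ in atTop, (D : ℝ) ^ (2 - κ * c - ε) ≤ NN {n | ω ∈ E n} c D := by
  obtain ⟨η, hη, hη1, hη2, hη3⟩ : ∃ η : ℝ, 0 < η ∧ η ≤ 1 / 20 ∧ (1 + η) * (κ * c) + 7 * η ≤ 2 ∧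
      (1 + η) * (κ * c) + 7 * η ≤ κ * c + ε := by
    refine ⟨min (1 / 20) (min ((2 - κ * c) / 9) (ε / 9)), lt_min (by norm_num)
      (lt_min (by linarith) (by linarith)), min_le_left _ _, ?_, ?_⟩
    · have h1 := (min_le_right (1 / 20 : ℝ) (min ((2 - κ * c) / 9) (ε / 9))).trans (min_le_left _ _)
      have h2 : 0 < min (1 / 20 : ℝ) (min ((2 - κ * c) / 9) (ε / 9)) := lt_min (by norm_num)
        (lt_min (by linarith) (by linarith))
      have h3 : 0 < κ * c := by positivity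
      nlinarith
    · have h1 := (min_le_right (1 / 20 : ℝ) (min ((2 - κ * c) / 9) (ε / 9))).trans (min_le_right _ _)
      have h2 : 0 < min (1 / 20 : ℝ) (min ((2 - κ * c) / 9) (ε / 9)) := lt_min (by norm_num)
        (lt_min (by linarith) (by linarith))
      have h3 : 0 < κ * c := by positivity
      nlinarith
  have key := low_pairs h.meas h.indep (wn c) ((1 + η) * (κ * c)) η (by positivity) hη hη1 hη2
    (wn_small c hc) (by
    filter_upwards [H η hη (by linarith), emp_low h hTs c κ η hc hκ hη (by linarith)] with q g1 g2 hq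
    obtain ⟨A, hA1, hA2⟩ := g1 hq
    exact ⟨A, fun a ha => ⟨(hA1 a ha).1, (hA1 a ha).2.1,
      (g2 a (hA1 a ha).1 (hA1 a ha).2.2.1 (hA1 a ha).2.2.2)⟩, hA2⟩)
  filter_upwards [key] with ω hω
  filter_upwards [hω, eventually_ge_atTop 1] with D hD hD1
  have hDr : (1 : ℝ) ≤ D := by exact_mod_cast hD1
  have h1 : (Cn E (wn c) ω D).card ≤ NN {n | ω ∈ E n} c D := by
    unfold NN
    rw [← Set.ncard_coe_finset]
    apply Set.ncard_le_ncard _ (NN_fin _ _ _)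
    intro z hz
    rw [Finset.mem_coe, mem_Cn] at hz
    obtain ⟨h2, h3, h4, h5, h6⟩ := hz
    exact ⟨h2, h3, h4, h5, late_of_empty h3 hc.le h5 h6⟩
  have h2 : ((Cn E (wn c) ω D).card : ℝ) ≤ NN {n | ω ∈ E n} c D := by exact_mod_cast h1
  refine le_trans ?_ (hD.trans h2)
  exact Real.rpow_le_rpow_of_exponent_le hDr (by linarith)

/-- infinitely many primes -/
theorem inf_low {T : ℕ → ℕ} {E : ℕ → Set Ω} (h : Sieved μ E T)
    (hTs : ∀ ε : ℝ, 0 < ε → ∀ᶠ n : ℕ in atTop, (T n : ℝ) ≤ (n : ℝ) ^ ε) (c c' κ : ℝ) (hc : 0 < c')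
    (hcc : c' < c) (hκ : 0 < κ) (hκc : κ * c < 2)
    (H : ∀ η : ℝ, 0 < η → η ≤ 1 / 2 → ∀ᶠ q : ℕ in atTop, q.Prime →
      ∃ A : Finset ℕ, (∀ a ∈ A, 1 ≤ a ∧ a < q ∧ q ≤ 3 * a ∧
        ∑ i ∈ range (wn c q + 1), fT T (a + q * i) ≤ κ * (c * (Real.log q) ^ 2)) ∧
        (q : ℝ) ^ (1 - η) ≤ A.card) :
    ∀ᵐ ω ∂μ, ∃ᶠ q : ℕ in atTop, q.Prime ∧
      ∃ a, 1 ≤ a ∧ a < q ∧ Late {n | ω ∈ E n} q a (wag c' q) := by
  have h1 := pairs_low h hTs c κ ((2 - κ * c) / 2) (by linarith) hκ hκc (by linarith) H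
  filter_upwards [h1] with ω hω
  rw [frequently_atTop]
  intro N
  obtain ⟨β, hβ⟩ : ∃ β, β = 2 - κ * c - (2 - κ * c) / 2 := ⟨_, rfl⟩
  rw [← hβ] at hω
  have hβ0 : 0 < β := by rw [hβ]; linarith
  have E1 : ∀ᶠ D : ℕ in atTop, ((N : ℝ) ^ 2 + 1) ≤ (D : ℝ) ^ β :=
    ((tendsto_rpow_atTop hβ0).comp tendsto_natCast_atTop_atTop).eventually_ge_atTop _
  obtain ⟨D, h2, h3⟩ := (hω.and E1).exists
  by_contra hcon
  push Not at hcon
  have h4 : NN {n | ω ∈ E n} c D ≤ N ^ 2 := by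
    unfold NN
    have h5 : {z : ℕ × ℕ | z.1 ≤ D ∧ z.1.Prime ∧ 1 ≤ z.2 ∧ z.2 < z.1 ∧
        Late {n | ω ∈ E n} z.1 z.2 (wag c z.1)} ⊆ ((range N ×ˢ range N : Finset (ℕ × ℕ)) : Set (ℕ × ℕ)) := by
      rintro z ⟨h6, h7, h8, h9, h10⟩
      have h11 : z.1 < N := by
        by_contra h12
        push Not at h12
        apply hcon z.1 h12 h7 z.2 h8 h9
        intro m hm1 hm2
        refine lt_of_le_of_lt ?_ (h10 m hm1 hm2)
        unfold wag
        gcongr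
      rw [Finset.mem_coe, mem_product, mem_range, mem_range]
      omega
    have h6 := Set.ncard_le_ncard h5 (Finset.finite_toSet _)
    rw [Set.ncard_coe_finset, card_product, card_range] at h6
    rw [sq]
    exact h6
  have h5 : (NN {n | ω ∈ E n} c D : ℝ) ≤ (N : ℝ) ^ 2 := by exact_mod_cast h4
  linarith

theorem sub_of (T : ℕ → ℕ) (h : ∀ θ : ℝ, 0 < θ → ∀ᶠ n : ℕ in atTop, (T n : ℝ) ≤ (Real.log n) ^ θ) :
    ∀ ε : ℝ, 0 < ε → ∀ᶠ n : ℕ in atTop, (T n : ℝ) ≤ (n : ℝ) ^ ε :=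
  sub_pow T 1 (h 1 one_pos)

/-- small sieves: no late class beyond `2` -/
theorem all_up {T : ℕ → ℕ} (hT : Monotone T)
    (hTl : ∀ θ : ℝ, 0 < θ → ∀ᶠ n : ℕ in atTop, (T n : ℝ) ≤ (Real.log n) ^ θ)
    {E : ℕ → Set Ω} (h : Sieved μ E T) (c : ℝ) (hc : 2 < c) :
    ∀ᵐ ω ∂μ, ∀ᶠ q : ℕ in atTop, q.Prime → ∀ a, 1 ≤ a → a < q →
      ¬ Late {n | ω ∈ E n} q a (wag c q) := by
  have hTs := sub_of T hTl
  obtain ⟨c', hc'⟩ : ∃ c', c' = (c + 2) / 2 := ⟨_, rfl⟩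
  have hc2 : 2 < c' := by rw [hc']; linarith
  have hcc : c' < c := by rw [hc']; linarith
  obtain ⟨ε, hε, hε1, hε2⟩ : ∃ ε : ℝ, 0 < ε ∧ ε < 1 ∧ 2 < (1 - ε) * c' / (1 + ε) := by
    refine ⟨(c' - 2) / (4 * c'), by apply div_pos <;> linarith, ?_, ?_⟩
    · rw [div_lt_one (by linarith)]
      linarith
    · have h1 : (c' - 2) / (4 * c') * c' = (c' - 2) / 4 := by field_simp
      have h2 : 0 < (c' - 2) / (4 * c') := by apply div_pos <;> linarith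
      have h3 : (c' - 2) / (4 * c') ≤ (c' - 2) / 8 := by
        apply div_le_div_of_nonneg_left (by linarith) (by norm_num) (by linarith)
      rw [lt_div_iff₀ (by linarith)]
      nlinarith
  obtain ⟨θ, hθ, H⟩ := areg ε hε
  have key := up_all (μ := μ) (E := E) (wn c') ((1 - ε) * c' / (1 + ε)) hε2 (by
    filter_upwards [H T hT (hTl θ hθ) c' (by linarith),
      emp_up h hTs c' (1 - ε) ε (by linarith) hε] with q g1 g2 hq a ha1 ha2
    exact g2 a ha1 ha2 (g1 hq a ha1 ha2))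
  filter_upwards [key] with ω hω
  filter_upwards [hω, empty_of_late (Ω := Ω) c c' (by linarith) hcc] with q g1 g2 hq a ha1 ha2 hL
  obtain ⟨i, hi, hi2⟩ := g1 hq a ha1 ha2
  exact g2 hq E ω a ha2 hL i hi hi2

/-- small sieves: upper bound for the number of late classes -/
theorem pairs_up {T : ℕ → ℕ} (hT : Monotone T)
    (hTl : ∀ θ : ℝ, 0 < θ → ∀ᶠ n : ℕ in atTop, (T n : ℝ) ≤ (Real.log n) ^ θ)
    {E : ℕ → Set Ω} (h : Sieved μ E T) (c ε : ℝ) (hc : 0 < c) (hc2 : c ≤ 2) (hε : 0 < ε) :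
    ∀ᵐ ω ∂μ, ∀ᶠ D : ℕ in atTop, (NN {n | ω ∈ E n} c D : ℝ) ≤ (D : ℝ) ^ (2 - c + ε) := by
  have hTs := sub_of T hTl
  -- parameters
  obtain ⟨t, ht⟩ : ∃ t : ℝ, t = min (1 / 4) (ε / 40) := ⟨_, rfl⟩
  have ht0 : 0 < t := by rw [ht]; exact lt_min (by norm_num) (by linarith)
  have ht1 : t ≤ 1 / 4 := by rw [ht]; exact min_le_left _ _
  have ht2 : t ≤ ε / 40 := by rw [ht]; exact min_le_right _ _
  obtain ⟨c', hc'⟩ : ∃ c', c' = c * (1 - t) := ⟨_, rfl⟩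
  have hc'0 : 0 < c' := by rw [hc']; apply mul_pos hc; linarith
  have hcc : c' < c := by rw [hc']; nlinarith
  obtain ⟨lam, hlam⟩ : ∃ lam, lam = (1 - t) * c' / (1 + t) := ⟨_, rfl⟩
  have hlam2 : lam ≤ 2 := by
    rw [hlam, div_le_iff₀ (by linarith), hc']
    nlinarith
  have hlamc : c - 8 * t ≤ lam := by
    rw [hlam, le_div_iff₀ (by linarith), hc']
    nlinarith [mul_pos hc ht0, mul_pos ht0 ht0]
  obtain ⟨θ, hθ, H⟩ := areg t ht0
  have key := up_pairs (μ := μ) (E := E) h.meas (wn c') lam t hlam2 ht0 (by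
    filter_upwards [H T hT (hTl θ hθ) c' hc'0,
      emp_up h hTs c' (1 - t) t hc'0 ht0] with q g1 g2 hq a ha1 ha2
    rw [hlam]
    exact g2 a ha1 ha2 (g1 hq a ha1 ha2))
  obtain ⟨q₀, hq₀⟩ := eventually_atTop.1 (empty_of_late (Ω := Ω) c c' hc'0.le hcc)
  have E1 : ∀ᶠ D : ℕ in atTop, ((q₀ : ℝ) ^ 2 + 1) ≤ (D : ℝ) ^ (2 - c + ε / 2) :=
    ((tendsto_rpow_atTop (by linarith)).comp tendsto_natCast_atTop_atTop).eventually_ge_atTop _
  have E2 : ∀ᶠ D : ℕ in atTop, 2 ≤ (D : ℝ) ^ (ε / 2) :=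
    ((tendsto_rpow_atTop (by linarith)).comp tendsto_natCast_atTop_atTop).eventually_ge_atTop _
  filter_upwards [key] with ω hω
  filter_upwards [hω, E1, E2, eventually_ge_atTop 1] with D g1 g2 g3 g4
  have hDr : (1 : ℝ) ≤ D := by exact_mod_cast g4
  have hD0 : (0 : ℝ) < D := by linarith
  have h1 : NN {n | ω ∈ E n} c D ≤ (Cn E (wn c') ω D).card + q₀ ^ 2 := by
    classical
    have h2 : {z : ℕ × ℕ | z.1 ≤ D ∧ z.1.Prime ∧ 1 ≤ z.2 ∧ z.2 < z.1 ∧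
        Late {n | ω ∈ E n} z.1 z.2 (wag c z.1)} ⊆
        ((Cn E (wn c') ω D ∪ (range q₀ ×ˢ range q₀) : Finset (ℕ × ℕ)) : Set (ℕ × ℕ)) := by
      rintro z ⟨h6, h7, h8, h9, h10⟩
      rw [Finset.mem_coe, mem_union]
      by_cases h11 : q₀ ≤ z.1
      · left
        rw [mem_Cn]
        exact ⟨h6, h7, h8, h9, fun i hi => hq₀ z.1 h11 h7 E ω z.2 h9 h10 i hi⟩
      · right
        rw [mem_product, mem_range, mem_range]
        omega
    have h3 := Set.ncard_le_ncard h2 (Finset.finite_toSet _)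
    rw [Set.ncard_coe_finset] at h3
    refine h3.trans ((card_union_le _ _).trans ?_)
    rw [card_product, card_range, sq]
  have h2 : (NN {n | ω ∈ E n} c D : ℝ) ≤ (Cn E (wn c') ω D).card + (q₀ : ℝ) ^ 2 := by
    exact_mod_cast h1
  have h3 : (D : ℝ) ^ (2 - lam + 4 * t) ≤ (D : ℝ) ^ (2 - c + ε / 2) :=
    Real.rpow_le_rpow_of_exponent_le hDr (by linarith)
  have h4 : (D : ℝ) ^ (2 - c + ε) = (D : ℝ) ^ (ε / 2) * (D : ℝ) ^ (2 - c + ε / 2) := by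
    rw [← Real.rpow_add hD0]
    congr 1
    ring
  have h5 : 0 < (D : ℝ) ^ (2 - c + ε / 2) := Real.rpow_pos_of_pos hD0 _
  rw [h4]
  nlinarith

end Pool.Agent.U839.Wg
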